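import Pool.Agent.Lib_MP_390115_up.Gen

/-!
# The antichain scheme

An antichain `A` with `w` elements, `a` elements strictly below `A`, `b` other elements. The bits between `A` and
the rest are stored only at the elements of `A`.
-/

namespace Pool.Agent.BUp

open Pool.Agent.Lib_MP_390115_co (CoverEmbeds IsCoverUniversal b)

/-- labels of the antichain scheme -/
inductive PA (a w c : ℕ) : Type
  | lo (i : Fin a) (s : Fin a → Bool) (v : Fin c → Bool)
  | mid (x : Fin w) (d : Fin a → Bool) (u : Fin c → Bool)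
  | up (k : Fin c) (t : Fin c → Bool) (d : Fin a → Bool)

/-- the antichain scheme as a sum type -/
def PA.equiv (a w c : ℕ) : PA a w c ≃
    (Fin a × (Fin a → Bool) × (Fin c → Bool)) ⊕ ((Fin w × (Fin a → Bool) × (Fin c → Bool)) ⊕
      (Fin c × (Fin c → Bool) × (Fin a → Bool))) where
  toFun t := match t with
    | PA.lo i s v => Sum.inl (i, s, v)
    | PA.mid x d u => Sum.inr (Sum.inl (x, d, u))
    | PA.up k t d => Sum.inr (Sum.inr (k, t, d))
  invFun s := match s with
    | Sum.inl (i, s, v) => PA.lo i s v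
    | Sum.inr (Sum.inl (x, d, u)) => PA.mid x d u
    | Sum.inr (Sum.inr (k, t, d)) => PA.up k t d
  left_inv t := by cases t <;> rfl
  right_inv s := by rcases s with (s | s | s) <;> rfl

noncomputable instance (a w c : ℕ) : Fintype (PA a w c) := Fintype.ofEquiv _ (PA.equiv a w c).symm

theorem card_PA (a w c : ℕ) : Fintype.card (PA a w c) = (a + w + c) * 2 ^ (a + c) := by
  rw [Fintype.card_congr (PA.equiv a w c)]
  simp only [Fintype.card_sum, Fintype.card_prod, Fintype.card_fun, Fintype.card_bool,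
    Fintype.card_fin]
  ring

/-- the strict order of the antichain scheme -/
def ltA {a w c : ℕ} : PA a w c → PA a w c → Prop
  | PA.lo i s v, PA.lo i' s' v' => i < i' ∧ s' i = true ∧ s i' = true ∧
      (∀ j, j < i → s j = true → s' j = true) ∧ (∀ j, i' < j → s' j = true → s j = true) ∧
      ∀ k, v' k = true → v k = true
  | PA.lo i s v, PA.mid _ d u => d i = true ∧ (∀ j, j < i → s j = true → d j = true) ∧
      ∀ k, u k = true → v k = true
  | PA.lo i s v, PA.up k t d => d i = true ∧ (∀ j, j < i → s j = true → d j = true) ∧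
      ∀ l, k < l → t l = true → v l = true
  | PA.mid _ d u, PA.up k t d' => u k = true ∧ (∀ l, k < l → t l = true → u l = true) ∧
      ∀ j, d j = true → d' j = true
  | PA.up k t d, PA.up k' t' d' => k < k' ∧ t k' = true ∧ t' k = true ∧
      (∀ l, k' < l → t' l = true → t l = true) ∧ (∀ l, l < k → t l = true → t' l = true) ∧
      ∀ j, d j = true → d' j = true
  | _, _ => False

theorem ltA_irrefl {a w c : ℕ} (x : PA a w c) : ¬ ltA x x := by
  intro h
  cases x with
  | lo i s v => exact lt_irrefl _ h.1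
  | mid x d u => exact h
  | up k t d => exact lt_irrefl _ h.1

theorem ltA_trans {a w c : ℕ} (x y z : PA a w c) (h1 : ltA x y) (h2 : ltA y z) : ltA x z := by
  cases x with
  | lo i s v =>
    cases y with
    | lo i' s' v' =>
      obtain ⟨a1, a2, a3, a4, a5, a6⟩ := h1
      cases z with
      | lo i'' s'' v'' =>
        obtain ⟨b1, b2, b3, b4, b5, b6⟩ := h2
        exact ⟨a1.trans b1, b4 _ a1 a2, a5 _ b1 b3, fun j hj h => b4 _ (hj.trans a1) (a4 _ hj h),
          fun j hj h => a5 _ (b1.trans hj) (b5 _ hj h), fun k h => a6 _ (b6 _ h)⟩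
      | mid x d u =>
        obtain ⟨b1, b2, b3⟩ := h2
        exact ⟨b2 _ a1 a2, fun j hj h => b2 _ (hj.trans a1) (a4 _ hj h), fun k h => a6 _ (b3 _ h)⟩
      | up k t d =>
        obtain ⟨b1, b2, b3⟩ := h2
        exact ⟨b2 _ a1 a2, fun j hj h => b2 _ (hj.trans a1) (a4 _ hj h),
          fun l hl h => a6 _ (b3 _ hl h)⟩
    | mid x' d' u' =>
      obtain ⟨a1, a2, a3⟩ := h1
      cases z with
      | lo i'' s'' v'' => exact h2.elim
      | mid x d u => exact h2.elim
      | up k t d =>
        obtain ⟨b1, b2, b3⟩ := h2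
        exact ⟨b3 _ a1, fun j hj h => b3 _ (a2 _ hj h), fun l hl h => a3 _ (b2 _ hl h)⟩
    | up k' t' d' =>
      obtain ⟨a1, a2, a3⟩ := h1
      cases z with
      | lo i'' s'' v'' => exact h2.elim
      | mid x d u => exact h2.elim
      | up k t d =>
        obtain ⟨b1, b2, b3, b4, b5, b6⟩ := h2
        exact ⟨b6 _ a1, fun j hj h => b6 _ (a2 _ hj h), fun l hl h => a3 _ (b1.trans hl) (b4 _ hl h)⟩
  | mid x d u =>
    cases y with
    | lo i' s' v' => exact h1.elim
    | mid x' d' u' => exact h1.elim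
    | up k' t' d' =>
      obtain ⟨a1, a2, a3⟩ := h1
      cases z with
      | lo i'' s'' v'' => exact h2.elim
      | mid x d u => exact h2.elim
      | up k t d =>
        obtain ⟨b1, b2, b3, b4, b5, b6⟩ := h2
        exact ⟨a2 _ b1 b2, fun l hl h => a2 _ (b1.trans hl) (b4 _ hl h), fun j h => b6 _ (a3 _ h)⟩
  | up k t d =>
    cases y with
    | lo i' s' v' => exact h1.elim
    | mid x' d' u' => exact h1.elim
    | up k' t' d' =>
      obtain ⟨a1, a2, a3, a4, a5, a6⟩ := h1
      cases z with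
      | lo i'' s'' v'' => exact h2.elim
      | mid x d u => exact h2.elim
      | up k t d =>
        obtain ⟨b1, b2, b3, b4, b5, b6⟩ := h2
        exact ⟨a1.trans b1, a4 _ b1 b2, b5 _ a1 a3, fun l hl h => a4 _ (b1.trans hl) (b4 _ hl h),
          fun l hl h => b5 _ (hl.trans a1) (a5 _ hl h), fun j h => b6 _ (a6 _ h)⟩

instance (a w c : ℕ) : PartialOrder (PA a w c) := ofLt ltA ltA_irrefl ltA_trans

/-- a linear extension, as an injective monotone map to the natural numbers -/
theorem exists_ext (Q : Type) [PartialOrder Q] [Fintype Q] :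
    ∃ e : Q → ℕ, Function.Injective e ∧ ∀ x y, x < y → e x < e y := by
  let fL : Fintype (LinearExtension Q) := ‹Fintype Q›
  have hL : @Fintype.card (LinearExtension Q) fL = Fintype.card Q := rfl
  let o : Fin (Fintype.card Q) ≃o LinearExtension Q :=
    @Fintype.orderIsoFinOfCardEq (LinearExtension Q) _ fL _ hL
  let e : Q → Fin (Fintype.card Q) := fun x => o.symm (toLinearExtension x)
  have hinj : Function.Injective e := by
    intro x y hxy
    exact o.symm.injective hxy
  refine ⟨fun x => (e x : ℕ), fun x y h => hinj (Fin.ext h), fun x y hxy => ?_⟩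
  have h1 : e x ≤ e y := o.symm.monotone (toLinearExtension.monotone hxy.le)
  exact lt_of_le_of_ne h1 (fun h => hxy.ne (hinj (Fin.ext h)))

section idx

variable {Q : Type} (e : Q → ℕ) (S : Finset Q)

/-- the index of `z` in `S`, with respect to `e` -/
def idx (z : Q) : ℕ := (S.filter fun z' => e z' < e z).card

theorem idx_lt {z : Q} (hz : z ∈ S) : idx e S z < S.card := by
  refine Finset.card_lt_card (Finset.ssubset_iff_subset_ne.2 ⟨Finset.filter_subset _ _, fun he => ?_⟩)
  rw [← he, Finset.mem_filter] at hz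
  exact lt_irrefl _ hz.2

theorem idx_mono {z z' : Q} (hz : z ∈ S) (h : e z < e z') : idx e S z < idx e S z' := by
  refine Finset.card_lt_card (Finset.ssubset_iff_subset_ne.2 ⟨fun v hv => ?_, fun he => ?_⟩)
  · rw [Finset.mem_filter] at hv ⊢
    exact ⟨hv.1, hv.2.trans h⟩
  · have h1 : z ∈ S.filter fun v => e v < e z' := Finset.mem_filter.2 ⟨hz, h⟩
    rw [← he, Finset.mem_filter] at h1
    exact lt_irrefl _ h1.2

theorem idx_inj (he : Function.Injective e) {z z' : Q} (hz : z ∈ S) (hz' : z' ∈ S)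
    (h : idx e S z = idx e S z') : z = z' := by
  rcases lt_trichotomy (e z) (e z') with h1 | h1 | h1
  · exact absurd h (idx_mono e S hz h1).ne
  · exact he h1
  · exact absurd h (idx_mono e S hz' h1).ne'

end idx

open Classical in
/-- the bit vector of a property of the elements of `S` -/
noncomputable def bits {Q : Type} (e : Q → ℕ) (S : Finset Q) (p : Q → Prop) (j : Fin S.card) : Bool :=
  decide (∃ y ∈ S, idx e S y = (j : ℕ) ∧ p y)

theorem bits_iff {Q : Type} {e : Q → ℕ} {S : Finset Q} {p : Q → Prop} {j : Fin S.card} :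
    bits e S p j = true ↔ ∃ y ∈ S, idx e S y = (j : ℕ) ∧ p y := by
  classical
  simp [bits]

theorem bits_mk {Q : Type} {e : Q → ℕ} (he : Function.Injective e) {S : Finset Q} {p : Q → Prop} {y : Q}
    (hy : y ∈ S) : bits e S p ⟨idx e S y, idx_lt e S hy⟩ = true ↔ p y := by
  rw [bits_iff]
  constructor
  · rintro ⟨y', h1, h2, h3⟩
    rwa [idx_inj e S he h1 hy h2] at h3
  · intro h
    exact ⟨y, hy, rfl, h⟩

/-- the label of an element -/
inductive IsLab {Q : Type} [PartialOrder Q] (e : Q → ℕ) (A D U : Finset Q) (z : Q) :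
    PA D.card A.card U.card → Prop
  | lo (h : z ∈ D) : IsLab e A D U z (PA.lo ⟨idx e D z, idx_lt e D h⟩
      (bits e D fun y => y < z ∨ z < y) (bits e U fun y => ∃ w, w ∉ D ∧ z < w ∧ w < y))
  | mid (h : z ∈ A) : IsLab e A D U z (PA.mid ⟨idx e A z, idx_lt e A h⟩
      (bits e D fun y => y < z) (bits e U fun y => z < y))
  | up (h : z ∈ U) : IsLab e A D U z (PA.up ⟨idx e U z, idx_lt e U h⟩
      (bits e U fun y => y < z ∨ z < y) (bits e D fun y => y < z))

section

variable {Q : Type} [PartialOrder Q] {e : Q → ℕ} {A D U : Finset Q}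
  (he : Function.Injective e) (hmono : ∀ x y, x < y → e x < e y)
  (hA : ∀ x ∈ A, ∀ y ∈ A, ¬ x < y) (hD : ∀ x y, x < y → y ∈ D → x ∈ D)
  (hAD : ∀ x y, x < y → y ∈ A → x ∈ D) (dAD : ∀ x ∈ A, x ∉ D) (dUD : ∀ x ∈ U, x ∉ D)
  (dUA : ∀ x ∈ U, x ∉ A)

include hmono in
theorem sbit_lo {S : Finset Q} {x : Q} {j : Fin S.card} (hj : (j : ℕ) < idx e S x) (hx : x ∈ S)
    (h : bits e S (fun y => y < x ∨ x < y) j = true) : ∃ y ∈ S, idx e S y = (j : ℕ) ∧ y < x := by
  obtain ⟨y, h1, h2, h3⟩ := bits_iff.1 h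
  refine ⟨y, h1, h2, h3.resolve_right fun h4 => ?_⟩
  have h5 := idx_mono e S hx (hmono _ _ h4)
  omega

include hmono in
theorem sbit_hi {S : Finset Q} {x : Q} {j : Fin S.card} (hj : idx e S x < (j : ℕ)) (hx : x ∈ S)
    (h : bits e S (fun y => y < x ∨ x < y) j = true) : ∃ y ∈ S, idx e S y = (j : ℕ) ∧ x < y := by
  obtain ⟨y, h1, h2, h3⟩ := bits_iff.1 h
  refine ⟨y, h1, h2, h3.resolve_left fun h4 => ?_⟩
  have h5 := idx_mono e S h1 (hmono _ _ h4)
  omega

include he hmono hA hD hAD dAD dUD dUA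

theorem lab_lt {x y : Q} {gx gy : PA D.card A.card U.card} (hx : IsLab e A D U x gx)
    (hy : IsLab e A D U y gy) : ltA gx gy ↔ x < y := by
  cases hx with
  | lo hx =>
    cases hy with
    | lo hy =>
      constructor
      · rintro ⟨h1, h2, _⟩
        obtain ⟨z, hz, h3, h4⟩ := sbit_lo hmono (j := ⟨idx e D x, idx_lt e D hx⟩) h1 hy h2
        rwa [idx_inj e D he hz hx h3] at h4
      · intro h
        have h0 := idx_mono e D hx (hmono _ _ h)
        refine ⟨h0, (bits_mk he hx).2 (Or.inl h), (bits_mk he hy).2 (Or.inr h), ?_, ?_, ?_⟩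
        · intro j hj h1
          obtain ⟨z, hz, h3, h4⟩ := sbit_lo hmono hj hx h1
          exact bits_iff.2 ⟨z, hz, h3, Or.inl (h4.trans h)⟩
        · intro j hj h1
          obtain ⟨z, hz, h3, h4⟩ := sbit_hi hmono hj hy h1
          exact bits_iff.2 ⟨z, hz, h3, Or.inr (h.trans h4)⟩
        · intro k h1
          obtain ⟨z, hz, h3, w, h4, h5, h6⟩ := bits_iff.1 h1
          exact bits_iff.2 ⟨z, hz, h3, w, h4, h.trans h5, h6⟩
    | mid hy =>
      constructor
      · rintro ⟨h1, _⟩
        exact (bits_mk he hx).1 h1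
      · intro h
        refine ⟨(bits_mk he hx).2 h, ?_, ?_⟩
        · intro j hj h1
          obtain ⟨z, hz, h3, h4⟩ := sbit_lo hmono hj hx h1
          exact bits_iff.2 ⟨z, hz, h3, h4.trans h⟩
        · intro k h1
          obtain ⟨z, hz, h3, h4⟩ := bits_iff.1 h1
          exact bits_iff.2 ⟨z, hz, h3, y, dAD y hy, h, h4⟩
    | up hy =>
      constructor
      · rintro ⟨h1, _⟩
        exact (bits_mk he hx).1 h1
      · intro h
        refine ⟨(bits_mk he hx).2 h, ?_, ?_⟩
        · intro j hj h1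
          obtain ⟨z, hz, h3, h4⟩ := sbit_lo hmono hj hx h1
          exact bits_iff.2 ⟨z, hz, h3, h4.trans h⟩
        · intro k hk h1
          obtain ⟨z, hz, h3, h4⟩ := sbit_hi hmono hk hy h1
          exact bits_iff.2 ⟨z, hz, h3, y, dUD y hy, h, h4⟩
  | mid hx =>
    cases hy with
    | lo hy => exact ⟨fun h => h.elim, fun h => absurd (hD _ _ h hy) (dAD x hx)⟩
    | mid hy => exact ⟨fun h => h.elim, fun h => hA x hx y hy h⟩
    | up hy =>
      constructor
      · rintro ⟨h1, _⟩
        exact (bits_mk he hy).1 h1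
      · intro h
        refine ⟨(bits_mk he hy).2 h, ?_, ?_⟩
        · intro l hl h1
          obtain ⟨z, hz, h3, h4⟩ := sbit_hi hmono hl hy h1
          exact bits_iff.2 ⟨z, hz, h3, h.trans h4⟩
        · intro j h1
          obtain ⟨z, hz, h3, h4⟩ := bits_iff.1 h1
          exact bits_iff.2 ⟨z, hz, h3, h4.trans h⟩
  | up hx =>
    cases hy with
    | lo hy => exact ⟨fun h => h.elim, fun h => absurd (hD _ _ h hy) (dUD x hx)⟩
    | mid hy => exact ⟨fun h => h.elim, fun h => absurd (hAD _ _ h hy) (dUD x hx)⟩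
    | up hy =>
      constructor
      · rintro ⟨h1, _, h2, _⟩
        obtain ⟨z, hz, h3, h4⟩ := sbit_lo hmono (j := ⟨idx e U x, idx_lt e U hx⟩) h1 hy h2
        rwa [idx_inj e U he hz hx h3] at h4
      · intro h
        have h0 := idx_mono e U hx (hmono _ _ h)
        refine ⟨h0, (bits_mk he hy).2 (Or.inr h), (bits_mk he hx).2 (Or.inl h), ?_, ?_, ?_⟩
        · intro j hj h1
          obtain ⟨z, hz, h3, h4⟩ := sbit_hi hmono hj hy h1
          exact bits_iff.2 ⟨z, hz, h3, Or.inr (h.trans h4)⟩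
        · intro j hj h1
          obtain ⟨z, hz, h3, h4⟩ := sbit_lo hmono hj hx h1
          exact bits_iff.2 ⟨z, hz, h3, Or.inl (h4.trans h)⟩
        · intro k h1
          obtain ⟨z, hz, h3, h4⟩ := bits_iff.1 h1
          exact bits_iff.2 ⟨z, hz, h3, h4.trans h⟩

theorem lab_inj {x y : Q} {g : PA D.card A.card U.card} (hx : IsLab e A D U x g)
    (hy : IsLab e A D U y g) : x = y := by
  generalize hg : g = g' at hy
  cases hx with
  | lo hx =>
    cases hy with
    | lo hy => exact idx_inj e D he hx hy (congrArg Fin.val (PA.lo.inj hg).1)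
    | mid hy => cases hg
    | up hy => cases hg
  | mid hx =>
    cases hy with
    | lo hy => cases hg
    | mid hy => exact idx_inj e A he hx hy (congrArg Fin.val (PA.mid.inj hg).1)
    | up hy => cases hg
  | up hx =>
    cases hy with
    | lo hy => cases hg
    | mid hy => cases hg
    | up hy => exact idx_inj e U he hx hy (congrArg Fin.val (PA.up.inj hg).1)

theorem lab_cov {x y : Q} {gx gy : PA D.card A.card U.card} (hx : IsLab e A D U x gx)
    (hy : IsLab e A D U y gy) (hxy : x ⋖ y) (c : PA D.card A.card U.card) (h1 : ltA gx c)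
    (h2 : ltA c gy) : False := by
  cases hx with
  | lo hx =>
    cases hy with
    | lo hy =>
      cases c with
      | lo k s v =>
        obtain ⟨a1, _, a3, _⟩ := h1
        obtain ⟨b1, b2, _⟩ := h2
        obtain ⟨z, hz, h3, h4⟩ := sbit_hi hmono a1 hx a3
        obtain ⟨z', hz', h3', h4'⟩ := sbit_lo hmono b1 hy b2
        rw [idx_inj e D he hz' hz (h3'.trans h3.symm)] at h4'
        exact hxy.2 h4 h4'
      | mid k d u => exact h2
      | up k t d => exact h2
    | mid hy =>
      cases c with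
      | lo k s v =>
        obtain ⟨a1, _, a3, _⟩ := h1
        obtain ⟨b1, b2, _⟩ := h2
        obtain ⟨z, hz, h3, h4⟩ := sbit_hi hmono a1 hx a3
        obtain ⟨z', hz', h3', h4'⟩ := bits_iff.1 b1
        rw [idx_inj e D he hz' hz (h3'.trans h3.symm)] at h4'
        exact hxy.2 h4 h4'
      | mid k d u => exact h2
      | up k t d => exact h2
    | up hy =>
      cases c with
      | lo k s v =>
        obtain ⟨a1, _, a3, _⟩ := h1
        obtain ⟨b1, b2, _⟩ := h2
        obtain ⟨z, hz, h3, h4⟩ := sbit_hi hmono a1 hx a3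
        obtain ⟨z', hz', h3', h4'⟩ := bits_iff.1 b1
        rw [idx_inj e D he hz' hz (h3'.trans h3.symm)] at h4'
        exact hxy.2 h4 h4'
      | mid k d u =>
        obtain ⟨_, _, a3⟩ := h1
        obtain ⟨b1, _, _⟩ := h2
        obtain ⟨w, _, h5, h6⟩ := (bits_mk he hy).1 (a3 _ b1)
        exact hxy.2 h5 h6
      | up k t d =>
        obtain ⟨_, _, a3⟩ := h1
        obtain ⟨b1, b2, _⟩ := h2
        obtain ⟨w, _, h5, h6⟩ := (bits_mk he hy).1 (a3 _ b1 b2)
        exact hxy.2 h5 h6
  | mid hx =>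
    cases hy with
    | lo hy => exact dAD x hx (hD _ _ hxy.lt hy)
    | mid hy => exact hA x hx y hy hxy.lt
    | up hy =>
      cases c with
      | lo k s v => exact h1
      | mid k d u => exact h1
      | up k t d =>
        obtain ⟨a1, _, _⟩ := h1
        obtain ⟨b1, _, b3, _⟩ := h2
        obtain ⟨z, hz, h3, h4⟩ := bits_iff.1 a1
        obtain ⟨z', hz', h3', h4'⟩ := sbit_lo hmono b1 hy b3
        rw [idx_inj e U he hz' hz (h3'.trans h3.symm)] at h4'
        exact hxy.2 h4 h4'
  | up hx =>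
    cases hy with
    | lo hy => exact dUD x hx (hD _ _ hxy.lt hy)
    | mid hy => exact dUD x hx (hAD _ _ hxy.lt hy)
    | up hy =>
      cases c with
      | lo k s v => exact h1
      | mid k d u => exact h1
      | up k t d =>
        obtain ⟨a1, a2, _⟩ := h1
        obtain ⟨b1, _, b3, _⟩ := h2
        obtain ⟨z, hz, h3, h4⟩ := sbit_hi hmono a1 hx a2
        obtain ⟨z', hz', h3', h4'⟩ := sbit_lo hmono b1 hy b3
        rw [idx_inj e U he hz' hz (h3'.trans h3.symm)] at h4'
        exact hxy.2 h4 h4'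

end

/-- The antichain scheme contains every ordered set with an antichain `A`. -/
theorem anti_embeds (Q : Type) [PartialOrder Q] [Fintype Q] (A : Finset Q)
    (hA : IsAntichain (· ≤ ·) (A : Set Q)) :
    ∃ a c, a + A.card + c = Fintype.card Q ∧ CoverEmbeds Q (PA a A.card c) := by
  classical
  obtain ⟨e, he, hmono⟩ := exists_ext Q
  let D : Finset Q := Finset.univ.filter fun z => ∃ y ∈ A, z < y
  let U : Finset Q := Finset.univ.filter fun z => z ∉ A ∧ z ∉ D
  have mD : ∀ z, z ∈ D ↔ ∃ y ∈ A, z < y := fun z => by simp [D]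
  have mU : ∀ z, z ∈ U ↔ z ∉ A ∧ z ∉ D := fun z => by simp [U]
  have hA' : ∀ x ∈ A, ∀ y ∈ A, ¬ x < y := fun x hx y hy h => hA hx hy h.ne h.le
  have hAD : ∀ x y, x < y → y ∈ A → x ∈ D := fun x y h hy => (mD x).2 ⟨y, hy, h⟩
  have hD : ∀ x y, x < y → y ∈ D → x ∈ D := by
    intro x y h hy
    obtain ⟨z, hz, h1⟩ := (mD y).1 hy
    exact (mD x).2 ⟨z, hz, h.trans h1⟩
  have dAD : ∀ x ∈ A, x ∉ D := by
    intro x hx h
    obtain ⟨z, hz, h1⟩ := (mD x).1 h
    exact hA' x hx z hz h1
  have dUD : ∀ x ∈ U, x ∉ D := fun x hx => ((mU x).1 hx).2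
  have dUA : ∀ x ∈ U, x ∉ A := fun x hx => ((mU x).1 hx).1
  have hex : ∀ z, ∃ g, IsLab e A D U z g := by
    intro z
    by_cases h1 : z ∈ A
    · exact ⟨_, IsLab.mid h1⟩
    · by_cases h2 : z ∈ D
      · exact ⟨_, IsLab.lo h2⟩
      · exact ⟨_, IsLab.up ((mU z).2 ⟨h1, h2⟩)⟩
  choose g hg using hex
  refine ⟨D.card, U.card, ?_, coverEmbeds_of g ?_ ?_ ?_⟩
  · have h1 : Disjoint D A := Finset.disjoint_left.2 fun x hx hx' => dAD x hx' hx
    have h2 : Disjoint (D ∪ A) U := by
      refine Finset.disjoint_left.2 fun x hx hx' => ?_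
      rcases Finset.mem_union.1 hx with h | h
      · exact dUD x hx' h
      · exact dUA x hx' h
    rw [← Finset.card_union_of_disjoint h1, ← Finset.card_union_of_disjoint h2, ← Finset.card_univ]
    congr 1
    ext x
    simp only [Finset.mem_union, Finset.mem_univ, iff_true]
    by_cases h3 : x ∈ A
    · exact Or.inl (Or.inr h3)
    · by_cases h4 : x ∈ D
      · exact Or.inl (Or.inl h4)
      · exact Or.inr ((mU x).2 ⟨h3, h4⟩)
  · intro x y hxy
    have h1 := hg x
    rw [hxy] at h1
    exact lab_inj he hmono hA' hD hAD dAD dUD dUA h1 (hg y)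
  · intro x y
    exact lab_lt he hmono hA' hD hAD dAD dUD dUA (hg x) (hg y)
  · intro x y hxy c h1 h2
    exact lab_cov he hmono hA' hD hAD dAD dUD dUA (hg x) (hg y) hxy c h1 h2

end Pool.Agent.BUp
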