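import Pool.Agent.Lib_MP_390115_up.Anti

/-!
# Block numbers

The elements of a poset get block numbers: `B` on an antichain `A`, less than `B` below `A`, larger than `B`
elsewhere; they are monotone, and every block has at most `n / B + 1` elements outside `A`.
-/

namespace Pool.Agent.BUp

open Pool.Agent.Lib_MP_390115_co (CoverEmbeds IsCoverUniversal b)

/-- block numbers -/
theorem exists_blocks (Q : Type) [PartialOrder Q] [Fintype Q] (A : Finset Q)
    (hA : IsAntichain (· ≤ ·) (A : Set Q)) (B n : ℕ) (hB : 0 < B) (hn : Fintype.card Q ≤ n) :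
    ∃ bq : Q → Fin (2 * B + 1), (∀ x ∈ A, (bq x : ℕ) = B) ∧
      (∀ x y, x < y → (bq x : ℕ) ≤ (bq y : ℕ)) ∧
      (∀ x, x ∉ A → ((bq x : ℕ) < B ↔ ∃ a ∈ A, x < a)) ∧
      (∀ (k : ℕ) (S : Finset Q), (∀ x ∈ S, x ∉ A ∧ (bq x : ℕ) = k) → S.card ≤ n / B + 1) := by
  classical
  obtain ⟨e, he, hmono⟩ := exists_ext Q
  obtain ⟨c, hc⟩ : ∃ c, c = n / B + 1 := ⟨_, rfl⟩
  have hc0 : 0 < c := by rw [hc]; exact Nat.succ_pos _
  obtain ⟨q, hqd⟩ : ∃ q : Q → ℕ, ∀ x, q x = idx e Finset.univ x / c := ⟨_, fun _ => rfl⟩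
  have hq : ∀ x : Q, q x < B := by
    intro x
    rw [hqd x]
    have h1 : idx e Finset.univ x < n := (idx_lt e Finset.univ (Finset.mem_univ x)).trans_le
      (by rwa [Finset.card_univ])
    have h2 : n < B * c := by rw [hc]; exact Nat.lt_mul_div_succ n hB
    exact (Nat.div_lt_iff_lt_mul hc0).2 (h1.trans h2)
  have hqm : ∀ x y : Q, x < y → q x ≤ q y := fun x y h => by
    rw [hqd x, hqd y]
    exact Nat.div_le_div_right (idx_mono e Finset.univ (Finset.mem_univ x) (hmono _ _ h)).le
  have hAA : ∀ x ∈ A, ∀ y ∈ A, ¬ x < y := fun x hx y hy h => hA hx hy h.ne h.le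
  let f : Q → ℕ := fun x => if x ∈ A then B else if ∃ a ∈ A, x < a then q x
    else B + 1 + q x
  have hf1 : ∀ x ∈ A, f x = B := fun x hx => if_pos hx
  have hf2 : ∀ x, x ∉ A → (∃ a ∈ A, x < a) → f x = q x := fun x hx h => by
    simp only [f]
    rw [if_neg hx, if_pos h]
  have hf3 : ∀ x, x ∉ A → ¬ (∃ a ∈ A, x < a) → f x = B + 1 + q x :=
    fun x hx h => by
      simp only [f]
      rw [if_neg hx, if_neg h]
  have hlt : ∀ x, f x < 2 * B + 1 := by
    intro x
    have h0 := hq x
    by_cases hx : x ∈ A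
    · rw [hf1 x hx]; omega
    · by_cases h : ∃ a ∈ A, x < a
      · rw [hf2 x hx h]; omega
      · rw [hf3 x hx h]; omega
  refine ⟨fun x => ⟨f x, hlt x⟩, hf1, ?_, ?_, ?_⟩
  · intro x y hxy
    show f x ≤ f y
    have h0 := hq x
    have h1 := hqm x y hxy
    by_cases hy : y ∈ A
    · have hx : x ∉ A := fun hx => hAA x hx y hy hxy
      rw [hf1 y hy, hf2 x hx ⟨y, hy, hxy⟩]
      exact h0.le
    · by_cases h : ∃ a ∈ A, y < a
      · obtain ⟨a, ha, hya⟩ := h
        have hx : x ∉ A := fun hx => hAA x hx a ha (hxy.trans hya)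
        rw [hf2 y hy ⟨a, ha, hya⟩, hf2 x hx ⟨a, ha, hxy.trans hya⟩]
        exact h1
      · rw [hf3 y hy h]
        by_cases hx : x ∈ A
        · rw [hf1 x hx]; omega
        · by_cases h' : ∃ a ∈ A, x < a
          · rw [hf2 x hx h']; omega
          · rw [hf3 x hx h']; omega
  · intro x hx
    show f x < B ↔ _
    by_cases h : ∃ a ∈ A, x < a
    · rw [hf2 x hx h]
      exact ⟨fun _ => h, fun _ => hq x⟩
    · rw [hf3 x hx h]
      exact ⟨fun h' => absurd h' (by omega), fun h' => absurd h' h⟩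
  · intro k S hS
    have hS' : ∀ x ∈ S, x ∉ A ∧ f x = k := hS
    have hk : ∀ x ∈ S, q x = if k < B then k else k - (B + 1) := by
      intro x hx
      obtain ⟨h1, h2⟩ := hS' x hx
      have h0 := hq x
      by_cases h : ∃ a ∈ A, x < a
      · rw [hf2 x h1 h] at h2
        rw [if_pos (by omega)]
        exact h2
      · rw [hf3 x h1 h] at h2
        rw [if_neg (by omega)]
        omega
    have hinj : Set.InjOn (fun x => idx e Finset.univ x % c) (S : Set Q) := by
      intro x hx y hy hxy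
      have h1 := hk x hx
      have h2 := hk y hy
      rw [hqd] at h1 h2
      have h3 : idx e Finset.univ x % c = idx e Finset.univ y % c := hxy
      refine idx_inj e Finset.univ he (Finset.mem_univ x) (Finset.mem_univ y) ?_
      rw [← Nat.div_add_mod (idx e Finset.univ x) c, ← Nat.div_add_mod (idx e Finset.univ y) c, h1,
        h2, h3]
    have hmaps : Set.MapsTo (fun x => idx e Finset.univ x % c) (S : Set Q)
        ((Finset.range c : Finset ℕ) : Set ℕ) := by
      intro x _
      rw [Finset.coe_range]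
      exact Nat.mod_lt _ hc0
    have h := Finset.card_le_card_of_injOn _ hmaps hinj
    rw [Finset.card_range] at h
    omega

end Pool.Agent.BUp
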