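import Pool.Agent.Lib_MP_390115_up.Sch

/-!
# The concrete scheme (definitions): pieces of chains of length at most 6, blocks of a linear extension
-/

namespace Pool.Agent.BUp

open Pool.Agent.Lib_MP_390115_co (CoverEmbeds IsCoverUniversal b)

/-- types of pieces: a length, and the block numbers of the elements -/
abbrev Th (β : ℕ) : Type := Σ c : Fin 7, (Fin c.1 → Fin β)

/-- pieces -/
abbrev JJ {β : ℕ} (N : Th β → ℕ) : Type := Σ θ : Th β, Fin (N θ)

/-- positions -/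
abbrev PP {β : ℕ} (N : Th β → ℕ) : Type := Σ j : JJ N, Fin j.1.1.1

/-- block number of a position -/
def blk {β : ℕ} {N : Th β → ℕ} (p : PP N) : ℕ := (p.1.1.2 p.2 : ℕ)

/-- number of elements of a piece in the blocks up to `x` -/
def aN {β : ℕ} (θ : Th β) (x : ℕ) : ℕ := (Finset.univ.filter fun t => (θ.2 t : ℕ) ≤ x).card

/-- number of elements of a piece in the blocks from `x` on -/
def eN {β : ℕ} (θ : Th β) (x : ℕ) : ℕ := (Finset.univ.filter fun t => x ≤ (θ.2 t : ℕ)).card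

/-- block number of a type -/
def bty {β : ℕ} {N : Th β → ℕ} (B W : ℕ) : PP N ⊕ Fin W → ℕ := Sum.elim blk fun _ => B

/-- labels -/
abbrev CL {β : ℕ} (N : Th β → ℕ) (B W : ℕ) : Type :=
  Σ i : PP N ⊕ Fin W, ((∀ j : JJ N, Fin (aN j.1 (bty B W i) + 1)) ×
    (∀ j : JJ N, Fin (eN j.1 (bty B W i) + 1)))

/-- the concrete scheme -/
def conc {β : ℕ} (N : Th β → ℕ) (B W : ℕ) : Scheme where
  Lam := CL N B W
  P := PP N
  W := W
  low p := blk p < B
  ty l := l.1
  DD l := {p | (p.2 : ℕ) < (l.2.1 p.1 : ℕ)}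
  EE l := {p | p.1.1.1.1 ≤ (p.2 : ℕ) + (l.2.2 p.1 : ℕ)}

end Pool.Agent.BUp
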