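import Mathlib

/-!
# States of one piece of a chain of length at most 6
-/

namespace Pool.Agent.BUp

private theorem cnt6_num : ∀ c < 7, ∀ k < 7, ∀ a < 7, k ≤ a → a ≤ c →
    ((a + 1) * ((c + k - a) + 1)) ^ 3 ≤ 4 ^ (c + if c < 6 then 1 else 0) * 8 ^ k := by
  decide

/-- The states of one piece: `a + 1` times `e + 1`, where `a` elements have block at most `x` and `e` elements
have block at least `x`. (file Count6.lean) -/
theorem piece_states {β : ℕ} (c : Fin 7) (s : Fin c.1 → Fin β) (x : ℕ) :
    (((Finset.univ.filter fun t => (s t : ℕ) ≤ x).card + 1) *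
      ((Finset.univ.filter fun t => x ≤ (s t : ℕ)).card + 1)) ^ 3 ≤
      4 ^ (c.1 + if c.1 < 6 then 1 else 0) * 8 ^ (Finset.univ.filter fun t => (s t : ℕ) = x).card := by
  classical
  have h1 : (Finset.univ.filter fun t => (s t : ℕ) ≤ x).card +
      (Finset.univ.filter fun t => x ≤ (s t : ℕ)).card =
      c.1 + (Finset.univ.filter fun t => (s t : ℕ) = x).card := by
    have hu : (Finset.univ.filter fun t => (s t : ℕ) ≤ x) ∪
        (Finset.univ.filter fun t => x ≤ (s t : ℕ)) = Finset.univ := by
      ext t
      simp only [Finset.mem_union, Finset.mem_filter, Finset.mem_univ, true_and, iff_true]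
      exact le_total _ _
    have hi : (Finset.univ.filter fun t => (s t : ℕ) ≤ x) ∩
        (Finset.univ.filter fun t => x ≤ (s t : ℕ)) =
        Finset.univ.filter fun t => (s t : ℕ) = x := by
      ext t
      simp only [Finset.mem_inter, Finset.mem_filter, Finset.mem_univ, true_and]
      omega
    rw [← Finset.card_union_add_card_inter, hu, hi, Finset.card_univ, Fintype.card_fin]
  have h2 : (Finset.univ.filter fun t => (s t : ℕ) = x).card ≤
      (Finset.univ.filter fun t => (s t : ℕ) ≤ x).card := by
    refine Finset.card_le_card fun t ht => ?_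
    simp only [Finset.mem_filter, Finset.mem_univ, true_and] at ht ⊢
    omega
  have h3 : (Finset.univ.filter fun t => (s t : ℕ) ≤ x).card ≤ c.1 := by
    refine (Finset.card_le_univ _).trans ?_
    rw [Fintype.card_fin]
  have h4 : c.1 < 7 := c.2
  generalize (Finset.univ.filter fun t => (s t : ℕ) ≤ x).card = a at *
  generalize (Finset.univ.filter fun t => x ≤ (s t : ℕ)).card = e at *
  generalize (Finset.univ.filter fun t => (s t : ℕ) = x).card = k at *
  obtain rfl : e = c.1 + k - a := by omega
  exact cnt6_num c.1 h4 k (by omega) a (by omega) h2 h3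

end Pool.Agent.BUp
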