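import Pool.Agent.Lib_MP_390115_up.CDef
import Pool.Agent.Lib_MP_390115_up.Count6

/-!
# The number of labels of the concrete scheme
-/

namespace Pool.Agent.BUp

/-- one fibre of the labels -/
private theorem fibre_card {β : ℕ} (N : Th β → ℕ) (x : ℕ) :
    Fintype.card ((∀ j : JJ N, Fin (aN j.1 x + 1)) × (∀ j : JJ N, Fin (eN j.1 x + 1))) =
      ∏ θ : Th β, ((aN θ x + 1) * (eN θ x + 1)) ^ N θ := by
  rw [Fintype.card_prod, Fintype.card_pi, Fintype.card_pi, ← Finset.prod_mul_distrib]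
  simp only [Fintype.card_fin]
  rw [Fintype.prod_sigma]
  refine Finset.prod_congr rfl fun θ _ => ?_
  show (∏ _y : Fin (N θ), (aN θ x + 1) * (eN θ x + 1)) = _
  rw [Finset.prod_const, Finset.card_univ, Fintype.card_fin]

/-- the cube of one fibre -/
private theorem fibre_cube {β : ℕ} (N : Th β → ℕ) (x n m : ℕ)
    (h2 : (∑ θ, N θ * θ.1.1) + (∑ θ : Th β, if θ.1.1 < 6 then N θ else 0) ≤ n)
    (h3 : ∑ θ : Th β, N θ * (Finset.univ.filter fun t => (θ.2 t : ℕ) = x).card ≤ m) :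
    (∏ θ : Th β, ((aN θ x + 1) * (eN θ x + 1)) ^ N θ) ^ 3 ≤ 4 ^ n * 8 ^ m := by
  have e1 : ∀ θ : Th β, (((aN θ x + 1) * (eN θ x + 1)) ^ N θ) ^ 3 ≤
      4 ^ (N θ * θ.1.1 + if θ.1.1 < 6 then N θ else 0) *
        8 ^ (N θ * (Finset.univ.filter fun t => (θ.2 t : ℕ) = x).card) := by
    intro θ
    have := piece_states θ.1 θ.2 x
    calc (((aN θ x + 1) * (eN θ x + 1)) ^ N θ) ^ 3 = (((aN θ x + 1) * (eN θ x + 1)) ^ 3) ^ N θ := by
          rw [← pow_mul, ← pow_mul, Nat.mul_comm (N θ) 3]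
      _ ≤ (4 ^ (θ.1.1 + if θ.1.1 < 6 then 1 else 0) *
            8 ^ (Finset.univ.filter fun t => (θ.2 t : ℕ) = x).card) ^ N θ :=
          Nat.pow_le_pow_left this _
      _ = _ := by
          rw [mul_pow, ← pow_mul, ← pow_mul]
          congr 2
          · split_ifs <;> ring
          · ring
  calc (∏ θ : Th β, ((aN θ x + 1) * (eN θ x + 1)) ^ N θ) ^ 3
      = ∏ θ : Th β, (((aN θ x + 1) * (eN θ x + 1)) ^ N θ) ^ 3 := (Finset.prod_pow _ _ _).symm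
    _ ≤ ∏ θ : Th β, (4 ^ (N θ * θ.1.1 + if θ.1.1 < 6 then N θ else 0) *
        8 ^ (N θ * (Finset.univ.filter fun t => (θ.2 t : ℕ) = x).card)) :=
        Finset.prod_le_prod' fun θ _ => e1 θ
    _ = 4 ^ ((∑ θ : Th β, N θ * θ.1.1) + ∑ θ : Th β, if θ.1.1 < 6 then N θ else 0) *
        8 ^ (∑ θ : Th β, N θ * (Finset.univ.filter fun t => (θ.2 t : ℕ) = x).card) := by
        rw [Finset.prod_mul_distrib, Finset.prod_pow_eq_pow_sum, Finset.prod_pow_eq_pow_sum,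
          Finset.sum_add_distrib]
    _ ≤ 4 ^ n * 8 ^ m :=
        Nat.mul_le_mul (Nat.pow_le_pow_right (by norm_num) h2) (Nat.pow_le_pow_right (by norm_num) h3)

private theorem fibre_real {β : ℕ} (N : Th β → ℕ) (x n m : ℕ)
    (h2 : (∑ θ, N θ * θ.1.1) + (∑ θ : Th β, if θ.1.1 < 6 then N θ else 0) ≤ n)
    (h3 : ∑ θ : Th β, N θ * (Finset.univ.filter fun t => (θ.2 t : ℕ) = x).card ≤ m) :
    ((Fintype.card ((∀ j : JJ N, Fin (aN j.1 x + 1)) × (∀ j : JJ N, Fin (eN j.1 x + 1))) : ℕ) : ℝ) ≤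
      (2 : ℝ) ^ (2 / 3 * (n : ℝ) + m) := by
  rw [fibre_card]
  have h := fibre_cube N x n m h2 h3
  generalize (∏ θ : Th β, ((aN θ x + 1) * (eN θ x + 1)) ^ N θ) = T at *
  have hr : ((T : ℝ)) ^ 3 ≤ 4 ^ n * 8 ^ m := by exact_mod_cast h
  refine le_of_pow_le_pow_left₀ (n := 3) (by norm_num) (Real.rpow_nonneg (by norm_num) _) (hr.trans_eq ?_)
  rw [← Real.rpow_natCast ((2 : ℝ) ^ (2 / 3 * (n : ℝ) + m)) 3, ← Real.rpow_mul (by norm_num)]
  have e : (2 / 3 * (n : ℝ) + m) * ((3 : ℕ) : ℝ) = ((2 * n + 3 * m : ℕ) : ℝ) := by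
    push_cast
    ring
  rw [e, Real.rpow_natCast, pow_add, pow_mul, pow_mul]
  norm_num

private theorem card_fib {I : Type} [Fintype I] (F : I → Type) [∀ i, Fintype (F i)] (T : ℝ)
    (hT : ∀ i, ((Fintype.card (F i) : ℕ) : ℝ) ≤ T) :
    ((Fintype.card (Σ i, F i) : ℕ) : ℝ) ≤ (Fintype.card I : ℝ) * T := by
  rw [Fintype.card_sigma, Nat.cast_sum]
  refine (Finset.sum_le_sum fun i _ => hT i).trans_eq ?_
  rw [Finset.sum_const, Finset.card_univ, nsmul_eq_mul]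

private theorem card_pos {β : ℕ} (N : Th β → ℕ) (W : ℕ) :
    Fintype.card (PP N ⊕ Fin W) = (∑ θ, N θ * θ.1.1) + W := by
  rw [Fintype.card_sum, Fintype.card_fin, Fintype.card_sigma, Fintype.sum_sigma]
  congr 1
  refine Finset.sum_congr rfl fun θ _ => ?_
  simp

/-- the number of labels (file Card6.lean, imports CDef and Count6) -/
theorem conc_card {β : ℕ} (N : Th β → ℕ) (B W n m : ℕ) (h1 : (∑ θ, N θ * θ.1.1) + W ≤ n)
    (h2 : (∑ θ, N θ * θ.1.1) + (∑ θ : Th β, if θ.1.1 < 6 then N θ else 0) ≤ n)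
    (h3 : ∀ x : ℕ, ∑ θ : Th β, N θ * (Finset.univ.filter fun t => (θ.2 t : ℕ) = x).card ≤ m) :
    (Fintype.card (CL N B W) : ℝ) ≤ n * (2 : ℝ) ^ (2 / 3 * (n : ℝ) + m) := by
  have hP : (Fintype.card (PP N ⊕ Fin W) : ℝ) ≤ n := by
    exact_mod_cast (card_pos N W).le.trans h1
  have h5 := (card_fib (I := PP N ⊕ Fin W) (fun i => (∀ j : JJ N, Fin (aN j.1 (bty B W i) + 1)) ×
    (∀ j : JJ N, Fin (eN j.1 (bty B W i) + 1))) _ fun i => fibre_real N _ n m h2 (h3 _))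
  have h7 := h5.trans (mul_le_mul_of_nonneg_right hP (Real.rpow_nonneg (by norm_num) _))
  convert h7
  rfl

end Pool.Agent.BUp
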