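import Pool.Agent.Lib_MP_390115_up.Gen

/-!
# The chain scheme

Pieces `j : J` of length `len j`; a label is a position together with, for each piece, one of
`2 * len j + 1` states, which code the number of elements of the piece which are below, and the number of
those which are doubly below.
-/

namespace Pool.Agent.BUp

open Pool.Agent.Lib_MP_390115_co (CoverEmbeds IsCoverUniversal b)

/-- labels of the chain scheme -/
def PC (J : Type) (len : J → ℕ) : Type :=
  (Σ j : J, Fin (len j)) × (∀ j : J, Fin (2 * len j + 1))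

noncomputable instance {J : Type} [Fintype J] (len : J → ℕ) : Fintype (PC J len) := by
  classical
  exact inferInstanceAs (Fintype ((Σ j : J, Fin (len j)) × (∀ j : J, Fin (2 * len j + 1))))

theorem card_PC {J : Type} [Fintype J] (len : J → ℕ) :
    Fintype.card (PC J len) = (∑ j, len j) * ∏ j, (2 * len j + 1) := by
  classical
  have h : Fintype.card (PC J len) =
      Fintype.card ((Σ j : J, Fin (len j)) × (∀ j : J, Fin (2 * len j + 1))) :=
    Fintype.card_congr (Equiv.refl _)
  rw [h, Fintype.card_prod, Fintype.card_sigma, Fintype.card_pi]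
  simp

/-- the strict order of the chain scheme -/
def ltC {J : Type} {len : J → ℕ} (x y : PC J len) : Prop :=
  2 * (x.1.2 : ℕ) + 1 ≤ (y.2 x.1.1 : ℕ) ∧ (∀ i, 2 * (((x.2 i : ℕ) + 1) / 2) ≤ (y.2 i : ℕ)) ∧
    (x.2 x.1.1 : ℕ) ≤ 2 * (x.1.2 : ℕ) ∧ (y.2 y.1.1 : ℕ) ≤ 2 * (y.1.2 : ℕ)

theorem ltC_irrefl {J : Type} {len : J → ℕ} (x : PC J len) : ¬ ltC x x := by
  rintro ⟨h1, _, h2, _⟩
  omega

theorem ltC_trans {J : Type} {len : J → ℕ} (x y z : PC J len) (h1 : ltC x y) (h2 : ltC y z) :
    ltC x z := by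
  obtain ⟨a1, a2, a3, a4⟩ := h1
  obtain ⟨b1, b2, b3, b4⟩ := h2
  refine ⟨?_, fun i => ?_, a3, b4⟩
  · have := b2 x.1.1
    omega
  · have h3 := a2 i
    have h4 := b2 i
    omega

instance {J : Type} (len : J → ℕ) : PartialOrder (PC J len) := ofLt ltC ltC_irrefl ltC_trans

section

variable {Q : Type} [PartialOrder Q] [Fintype Q] {J : Type} (ι : Q → J)

open Classical in
/-- elements of the piece `j` below `x` -/
noncomputable def dS (x : Q) (j : J) : Finset Q := Finset.univ.filter fun y => ι y = j ∧ y < x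

open Classical in
/-- elements of the piece `j` doubly below `x` -/
noncomputable def wS (x : Q) (j : J) : Finset Q :=
  Finset.univ.filter fun y => ι y = j ∧ ∃ z, y < z ∧ z < x

theorem mem_dS {x y : Q} {j : J} : y ∈ dS ι x j ↔ ι y = j ∧ y < x := by
  classical
  simp [dS]

theorem mem_wS {x y : Q} {j : J} : y ∈ wS ι x j ↔ ι y = j ∧ ∃ z, y < z ∧ z < x := by
  classical
  simp [wS]

theorem wS_le (x : Q) (j : J) : (wS ι x j).card ≤ (dS ι x j).card := by
  refine Finset.card_le_card fun y hy => ?_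
  rw [mem_wS] at hy
  rw [mem_dS]
  obtain ⟨h, z, h1, h2⟩ := hy
  exact ⟨h, h1.trans h2⟩

theorem dS_le_wS {x y : Q} (h : x < y) (j : J) : (dS ι x j).card ≤ (wS ι y j).card := by
  refine Finset.card_le_card fun z hz => ?_
  rw [mem_dS] at hz
  rw [mem_wS]
  exact ⟨hz.1, x, hz.2, h⟩

variable (hch : ∀ x y, ι x = ι y → x ≤ y ∨ y ≤ x)

include hch

theorem dS_le (x : Q) (j : J) : (dS ι x j).card ≤ (wS ι x j).card + 1 := by
  classical
  have h1 : (dS ι x j \ wS ι x j).card ≤ 1 := by
    rw [Finset.card_le_one]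
    intro a ha b hb
    rw [Finset.mem_sdiff, mem_dS, mem_wS] at ha hb
    by_contra hne
    rcases hch a b (ha.1.1.trans hb.1.1.symm) with h | h
    · exact ha.2 ⟨ha.1.1, b, lt_of_le_of_ne h hne, hb.1.2⟩
    · exact hb.2 ⟨hb.1.1, a, lt_of_le_of_ne h (Ne.symm hne), ha.1.2⟩
  have h2 := Finset.le_card_sdiff (wS ι x j) (dS ι x j)
  omega

theorem dS_lt {x y : Q} : (dS ι y (ι y)).card < (dS ι x (ι y)).card ↔ y < x := by
  constructor
  · intro h
    by_contra hyx
    refine absurd h (not_lt.2 (Finset.card_le_card fun z hz => ?_))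
    rw [mem_dS] at hz ⊢
    refine ⟨hz.1, ?_⟩
    rcases hch z y hz.1 with h1 | h1
    · refine lt_of_le_of_ne h1 ?_
      rintro rfl
      exact hyx hz.2
    · exact absurd (lt_of_le_of_lt h1 hz.2) hyx
  · intro h
    refine Finset.card_lt_card (Finset.ssubset_iff_subset_ne.2 ⟨fun z hz => ?_, fun he => ?_⟩)
    · rw [mem_dS] at hz ⊢
      exact ⟨hz.1, hz.2.trans h⟩
    · have h1 : y ∈ dS ι x (ι y) := (mem_dS ι).2 ⟨rfl, h⟩
      rw [← he, mem_dS] at h1
      exact lt_irrefl _ h1.2

theorem wS_lt {x y : Q} : (dS ι y (ι y)).card < (wS ι x (ι y)).card ↔ ∃ z, y < z ∧ z < x := by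
  constructor
  · intro h
    by_contra hyx
    refine absurd h (not_lt.2 (Finset.card_le_card fun z hz => ?_))
    rw [mem_wS] at hz
    rw [mem_dS]
    obtain ⟨hz1, v, hv1, hv2⟩ := hz
    refine ⟨hz1, ?_⟩
    rcases hch z y hz1 with h1 | h1
    · refine lt_of_le_of_ne h1 ?_
      rintro rfl
      exact hyx ⟨v, hv1, hv2⟩
    · exact absurd ⟨v, lt_of_le_of_lt h1 hv1, hv2⟩ hyx
  · rintro ⟨v, hv1, hv2⟩
    refine Finset.card_lt_card (Finset.ssubset_iff_subset_ne.2 ⟨fun z hz => ?_, fun he => ?_⟩)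
    · rw [mem_dS] at hz
      rw [mem_wS]
      exact ⟨hz.1, v, hz.2.trans hv1, hv2⟩
    · have h1 : y ∈ wS ι x (ι y) := (mem_wS ι).2 ⟨rfl, v, hv1, hv2⟩
      rw [← he, mem_dS] at h1
      exact lt_irrefl _ h1.2

end

/-- The chain scheme contains every ordered set which is divided into chains, at most one for each `j : J`, of
sizes at most `len j`. -/
theorem chain_embeds (Q : Type) [PartialOrder Q] [Fintype Q] {J : Type} [Fintype J] (len : J → ℕ)
    (ι : Q → J) (hch : ∀ x y, ι x = ι y → x ≤ y ∨ y ≤ x)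
    (hlen : ∀ j, Nat.card {x : Q // ι x = j} ≤ len j) : CoverEmbeds Q (PC J len) := by
  classical
  have hfib : ∀ j, (Finset.univ.filter fun y : Q => ι y = j).card ≤ len j := by
    intro j
    refine le_trans (le_of_eq ?_) (hlen j)
    rw [Nat.card_eq_fintype_card, Fintype.card_subtype]
  have hd : ∀ x j, (dS ι x j).card ≤ len j := by
    intro x j
    refine (Finset.card_le_card fun y hy => ?_).trans (hfib j)
    rw [mem_dS] at hy
    exact Finset.mem_filter.2 ⟨Finset.mem_univ _, hy.1⟩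
  have ht : ∀ x, (dS ι x (ι x)).card < len (ι x) := by
    intro x
    refine lt_of_lt_of_le (Finset.card_lt_card (Finset.ssubset_iff_subset_ne.2
      ⟨fun y hy => ?_, fun he => ?_⟩)) (hfib (ι x))
    · rw [mem_dS] at hy
      exact Finset.mem_filter.2 ⟨Finset.mem_univ _, hy.1⟩
    · have h1 : x ∈ Finset.univ.filter fun y : Q => ι y = ι x :=
        Finset.mem_filter.2 ⟨Finset.mem_univ _, rfl⟩
      rw [← he, mem_dS] at h1
      exact lt_irrefl _ h1.2
  have hσ : ∀ x j, (dS ι x j).card + (wS ι x j).card < 2 * len j + 1 := by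
    intro x j
    have h1 := hd x j
    have h2 := wS_le ι x j
    omega
  let g : Q → PC J len := fun x =>
    (⟨ι x, ⟨(dS ι x (ι x)).card, ht x⟩⟩, fun j => ⟨(dS ι x j).card + (wS ι x j).card, hσ x j⟩)
  have hlt : ∀ x y, g x < g y ↔ x < y := by
    intro x y
    show ltC (g x) (g y) ↔ _
    constructor
    · rintro ⟨h1, _⟩
      have h1' : 2 * (dS ι x (ι x)).card + 1 ≤ (dS ι y (ι x)).card + (wS ι y (ι x)).card := h1
      have h2 := wS_le ι y (ι x)
      exact (dS_lt ι hch).1 (by omega)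
    · intro h
      have h1 := (dS_lt ι hch).2 h
      have h2 := dS_le ι hch y (ι x)
      have h3 := wS_le ι x (ι x)
      have h4 := wS_le ι y (ι y)
      refine ⟨?_, fun i => ?_, ?_, ?_⟩
      · show 2 * (dS ι x (ι x)).card + 1 ≤ (dS ι y (ι x)).card + (wS ι y (ι x)).card
        omega
      · show 2 * (((dS ι x i).card + (wS ι x i).card + 1) / 2) ≤
          (dS ι y i).card + (wS ι y i).card
        have h5 := dS_le ι hch x i
        have h6 := wS_le ι x i
        have h7 := wS_le ι y i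
        have h8 := dS_le_wS ι h i
        omega
      · show (dS ι x (ι x)).card + (wS ι x (ι x)).card ≤ 2 * (dS ι x (ι x)).card
        omega
      · show (dS ι y (ι y)).card + (wS ι y (ι y)).card ≤ 2 * (dS ι y (ι y)).card
        omega
  refine coverEmbeds_of g ?_ hlt ?_
  · intro x y hxy
    have h1 : ι x = ι y := congrArg (fun p : PC J len => p.1.1) hxy
    have h2 : (dS ι x (ι x)).card = (dS ι y (ι y)).card :=
      congrArg (fun p : PC J len => (p.1.2 : ℕ)) hxy
    by_contra hne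
    rcases hch x y h1 with h | h
    · have h3 := (dS_lt ι hch).2 (lt_of_le_of_ne h hne)
      rw [h2, h1] at h3
      exact lt_irrefl _ h3
    · have h3 := (dS_lt ι hch).2 (lt_of_le_of_ne h (Ne.symm hne))
      rw [← h2, ← h1] at h3
      exact lt_irrefl _ h3
  · intro x y hxy c h1 h2
    obtain ⟨a1, _⟩ := (h1 : ltC (g x) c)
    obtain ⟨_, b2, _⟩ := (h2 : ltC c (g y))
    have h3 := b2 (ι x)
    have h4 : 2 * (((c.2 (ι x) : ℕ) + 1) / 2) ≤ (dS ι y (ι x)).card + (wS ι y (ι x)).card := h3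
    have h5 : 2 * (dS ι x (ι x)).card + 1 ≤ (c.2 (ι x) : ℕ) := a1
    have h6 := dS_le ι hch y (ι x)
    obtain ⟨z, hz1, hz2⟩ := (wS_lt ι hch (x := y) (y := x)).1 (by omega)
    exact hxy.2 hz1 hz2

end Pool.Agent.BUp
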