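import Pool.Agent.Lib_MP_390115_up.Sch
import Pool.Agent.Lib_MP_390115_up.CDef

/-!
# The concrete scheme: every ordered set embeds
-/

namespace Pool.Agent.BUp

open Pool.Agent.Lib_MP_390115_co (CoverEmbeds IsCoverUniversal b)

theorem pp_ext {β : ℕ} {N : Th β → ℕ} {p q : PP N} (h : p.1 = q.1) (h' : (p.2 : ℕ) = (q.2 : ℕ)) :
    p = q := by
  obtain ⟨j, t⟩ := p
  obtain ⟨j', t'⟩ := q
  dsimp only at h
  subst h
  have h2 : t = t' := Fin.ext h'
  subst h2
  rfl

open Classical in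
theorem cnt_pos {β : ℕ} {N : Th β → ℕ} {R : Type} [Fintype R] (pos : R ≃ PP N) (j : JJ N)
    (φ : ℕ → Prop) [DecidablePred φ] :
    (Finset.univ.filter fun y : R => (pos y).1 = j ∧ φ (pos y).2).card =
      ((Finset.range j.1.1.1).filter φ).card := by
  refine Finset.card_bij (fun y _ => ((pos y).2 : ℕ)) ?_ ?_ ?_
  · intro y hy
    rw [Finset.mem_filter] at hy
    rw [Finset.mem_filter, Finset.mem_range]
    obtain ⟨_, rfl, h2⟩ := hy
    exact ⟨(pos y).2.2, h2⟩
  · intro y hy y' hy' h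
    rw [Finset.mem_filter] at hy hy'
    exact pos.injective (pp_ext (hy.2.1.trans hy'.2.1.symm) h)
  · intro t ht
    rw [Finset.mem_filter, Finset.mem_range] at ht
    refine ⟨pos.symm ⟨j, ⟨t, ht.1⟩⟩, ?_, ?_⟩
    · rw [Finset.mem_filter, Equiv.apply_symm_apply]
      exact ⟨Finset.mem_univ _, rfl, ht.2⟩
    · rw [Equiv.apply_symm_apply]

open Classical in
theorem cnt_blk {β : ℕ} {N : Th β → ℕ} {R : Type} [Fintype R] (pos : R ≃ PP N) (j : JJ N)
    (φ : ℕ → Prop) (S : Finset R) (hS : ∀ y ∈ S, (pos y).1 = j ∧ φ (blk (pos y))) :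
    S.card ≤ (Finset.univ.filter fun t => φ (j.1.2 t : ℕ)).card := by
  have h1 : (Finset.univ.filter fun t => φ (j.1.2 t : ℕ)).card =
      ((Finset.univ.filter fun t => φ (j.1.2 t : ℕ)).image fun t => (⟨j, t⟩ : PP N)).card := by
    rw [Finset.card_image_of_injective]
    intro t t' h
    exact eq_of_heq (Sigma.mk.inj h).2
  rw [h1]
  refine Finset.card_le_card_of_injOn (fun y => pos y) ?_ fun _ _ _ _ h => pos.injective h
  intro y hy
  obtain ⟨h2, h3⟩ := hS y hy
  rw [Finset.mem_coe, Finset.mem_image]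
  subst h2
  exact ⟨(pos y).2, Finset.mem_filter.2 ⟨Finset.mem_univ _, h3⟩, rfl⟩

theorem cnt_aN {β : ℕ} {N : Th β → ℕ} {R : Type} [Fintype R] (pos : R ≃ PP N) (j : JJ N)
    (x : ℕ) (S : Finset R) (hS : ∀ y ∈ S, (pos y).1 = j ∧ blk (pos y) ≤ x) :
    S.card ≤ aN j.1 x := by
  classical
  refine (cnt_blk pos j (fun n => n ≤ x) S hS).trans (le_of_eq ?_)
  unfold aN
  congr

theorem cnt_eN {β : ℕ} {N : Th β → ℕ} {R : Type} [Fintype R] (pos : R ≃ PP N) (j : JJ N)
    (x : ℕ) (S : Finset R) (hS : ∀ y ∈ S, (pos y).1 = j ∧ x ≤ blk (pos y)) :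
    S.card ≤ eN j.1 x := by
  classical
  refine (cnt_blk pos j (fun n => x ≤ n) S hS).trans (le_of_eq ?_)
  unfold eN
  congr

/-- a down-closed part of a piece is an initial segment -/
theorem rank_D {β : ℕ} {N : Th β → ℕ} {R : Type} [Fintype R] (pos : R ≃ PP N) (φ : R → Prop)
    (hφ : ∀ y y', (pos y).1 = (pos y').1 → ((pos y).2 : ℕ) ≤ ((pos y').2 : ℕ) → φ y' → φ y)
    (S : Finset R) (y : R) (hS : ∀ z, z ∈ S ↔ (pos z).1 = (pos y).1 ∧ φ z) :
    ((pos y).2 : ℕ) < S.card ↔ φ y := by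
  classical
  constructor
  · intro h
    by_contra hy
    -- all elements of `S` have smaller position numbers
    have h1 : S.card ≤ ((Finset.range (pos y).1.1.1.1).filter fun k => k < ((pos y).2 : ℕ)).card := by
      rw [← cnt_pos pos (pos y).1 fun k => k < ((pos y).2 : ℕ)]
      refine Finset.card_le_card fun z hz => ?_
      obtain ⟨h2, h3⟩ := (hS z).1 hz
      refine Finset.mem_filter.2 ⟨Finset.mem_univ _, h2, ?_⟩
      by_contra h4
      exact hy (hφ y z h2.symm (not_lt.1 h4) h3)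
    have h2 : ((Finset.range (pos y).1.1.1.1).filter fun k => k < ((pos y).2 : ℕ)).card ≤
        ((pos y).2 : ℕ) := by
      refine (Finset.card_le_card (t := Finset.range ((pos y).2 : ℕ)) fun k hk => ?_).trans
        (le_of_eq (Finset.card_range _))
      exact Finset.mem_range.2 (Finset.mem_filter.1 hk).2
    omega
  · intro hy
    have h1 : ((Finset.range (pos y).1.1.1.1).filter fun k => k ≤ ((pos y).2 : ℕ)).card ≤ S.card := by
      rw [← cnt_pos pos (pos y).1 fun k => k ≤ ((pos y).2 : ℕ)]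
      refine Finset.card_le_card fun z hz => ?_
      obtain ⟨_, h2, h3⟩ := Finset.mem_filter.1 hz
      exact (hS z).2 ⟨h2, hφ z y h2 h3 hy⟩
    have h2 : ((pos y).2 : ℕ) + 1 ≤
        ((Finset.range (pos y).1.1.1.1).filter fun k => k ≤ ((pos y).2 : ℕ)).card := by
      refine le_trans (le_of_eq (Finset.card_range _).symm)
        (Finset.card_le_card (s := Finset.range (((pos y).2 : ℕ) + 1)) fun k hk => ?_)
      have h3 := Finset.mem_range.1 hk
      have h4 : ((pos y).2 : ℕ) < (pos y).1.1.1.1 := (pos y).2.2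
      exact Finset.mem_filter.2 ⟨Finset.mem_range.2 (by omega), by omega⟩
    omega

/-- an up-closed part of a piece is a final segment -/
theorem rank_E {β : ℕ} {N : Th β → ℕ} {R : Type} [Fintype R] (pos : R ≃ PP N) (φ : R → Prop)
    (hφ : ∀ y y', (pos y).1 = (pos y').1 → ((pos y).2 : ℕ) ≤ ((pos y').2 : ℕ) → φ y → φ y')
    (S : Finset R) (y : R) (hS : ∀ z, z ∈ S ↔ (pos z).1 = (pos y).1 ∧ φ z) :
    (pos y).1.1.1.1 ≤ ((pos y).2 : ℕ) + S.card ↔ φ y := by
  classical
  constructor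
  · intro h
    by_contra hy
    have h1 : S.card ≤ ((Finset.range (pos y).1.1.1.1).filter fun k => ((pos y).2 : ℕ) < k).card := by
      rw [← cnt_pos pos (pos y).1 fun k => ((pos y).2 : ℕ) < k]
      refine Finset.card_le_card fun z hz => ?_
      obtain ⟨h2, h3⟩ := (hS z).1 hz
      refine Finset.mem_filter.2 ⟨Finset.mem_univ _, h2, ?_⟩
      by_contra h4
      exact hy (hφ z y h2 (not_lt.1 h4) h3)
    have h2 : ((Finset.range (pos y).1.1.1.1).filter fun k => ((pos y).2 : ℕ) < k).card ≤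
        (pos y).1.1.1.1 - (((pos y).2 : ℕ) + 1) := by
      refine (Finset.card_le_card
        (t := Finset.Ico (((pos y).2 : ℕ) + 1) (pos y).1.1.1.1) fun k hk => ?_).trans
        (le_of_eq (Nat.card_Ico _ _))
      obtain ⟨h3, h4⟩ := Finset.mem_filter.1 hk
      exact Finset.mem_Ico.2 ⟨h4, Finset.mem_range.1 h3⟩
    have h4 : ((pos y).2 : ℕ) < (pos y).1.1.1.1 := (pos y).2.2
    omega
  · intro hy
    have h1 : ((Finset.range (pos y).1.1.1.1).filter fun k => ((pos y).2 : ℕ) ≤ k).card ≤ S.card := by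
      rw [← cnt_pos pos (pos y).1 fun k => ((pos y).2 : ℕ) ≤ k]
      refine Finset.card_le_card fun z hz => ?_
      obtain ⟨_, h2, h3⟩ := Finset.mem_filter.1 hz
      exact (hS z).2 ⟨h2, hφ y z h2.symm h3 hy⟩
    have h2 : (pos y).1.1.1.1 - ((pos y).2 : ℕ) ≤
        ((Finset.range (pos y).1.1.1.1).filter fun k => ((pos y).2 : ℕ) ≤ k).card := by
      refine le_trans (le_of_eq (Nat.card_Ico _ _).symm)
        (Finset.card_le_card (s := Finset.Ico ((pos y).2 : ℕ) (pos y).1.1.1.1) fun k hk => ?_)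
      obtain ⟨h3, h4⟩ := Finset.mem_Ico.1 hk
      exact Finset.mem_filter.2 ⟨Finset.mem_range.2 h4, h3⟩
    omega

theorem conc_embeds {β : ℕ} (N : Th β → ℕ) (B : ℕ) (Q : Type) [PartialOrder Q] [Fintype Q]
    (A : Finset Q) (hA : IsAntichain (· ≤ ·) (A : Set Q)) (f : Q → Fin A.card)
    (hf : ∀ x y, f x = f y → x ≤ y ∨ y ≤ x) (bq : Q → ℕ) (pos : {x : Q // x ∉ A} ≃ PP N)
    (h1 : ∀ x : {x : Q // x ∉ A}, blk (pos x) = bq x) (h2 : ∀ x ∈ A, bq x = B)
    (h3 : ∀ x y, x < y → bq x ≤ bq y) (h4 : ∀ x, x ∉ A → (bq x < B ↔ ∃ a ∈ A, x < a))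
    (p1 : ∀ x y, (pos x).1 = (pos y).1 → f x = f y)
    (p2 : ∀ x y, (pos x).1 = (pos y).1 → ((pos x).2 : ℕ) < ((pos y).2 : ℕ) → x < y) :
    CoverEmbeds Q (SL (conc N B A.card)) := by
  classical
  have hA' : ∀ x ∈ (A : Set Q), ∀ y ∈ (A : Set Q), ¬ x < y := fun x hx y hy h => hA hx hy h.ne h.le
  -- each colour contains an element of `A`
  have hcol : ∀ i : Fin A.card, ∃ a ∈ A, f a = i := by
    intro i
    have hinj : Set.InjOn f (A : Set Q) := by
      intro x hx y hy h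
      by_contra hne
      rcases hf x y h with h5 | h5
      · exact hA hx hy hne h5
      · exact hA hy hx (Ne.symm hne) h5
    have hsurj : A.image f = Finset.univ := by
      rw [← Finset.card_eq_iff_eq_univ, Finset.card_image_of_injOn hinj, Fintype.card_fin]
    have h5 : i ∈ A.image f := by
      rw [hsurj]
      exact Finset.mem_univ i
    obtain ⟨a, ha, h6⟩ := Finset.mem_image.1 h5
    exact ⟨a, ha, h6⟩
  have hbtw : ∀ y y' : {x : Q // x ∉ A}, (pos y).1 = (pos y').1 → Lw (A : Set Q) y.1 →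
      ¬ Lw (A : Set Q) y'.1 → ∃ w, ¬ Lw (A : Set Q) w ∧ y.1 < w ∧ w < y'.1 := by
    intro y y' hp hy hy'
    obtain ⟨a, ha, hfa⟩ := hcol (f y.1)
    refine ⟨a, fun ⟨a', ha', h5⟩ => hA' a ha a' ha' h5, ?_, ?_⟩
    · rcases hf a y.1 hfa with h5 | h5
      · obtain ⟨a', ha', h6⟩ := hy
        exact absurd (lt_of_le_of_lt h5 h6) (hA' a ha a' ha')
      · exact lt_of_le_of_ne h5 fun h6 => y.2 (h6 ▸ ha)
    · rcases hf a y'.1 (hfa.trans (p1 y y' hp)) with h5 | h5
      · exact lt_of_le_of_ne h5 fun h6 => y'.2 (h6 ▸ ha)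
      · exact absurd ⟨a, ha, lt_of_le_of_ne h5 fun h6 => y'.2 (h6 ▸ ha)⟩ hy'
  have hcmp : ∀ y y' : {x : Q // x ∉ A}, (pos y).1 = (pos y').1 → y ≠ y' →
      ((pos y).2 : ℕ) ≤ ((pos y').2 : ℕ) → y.1 < y'.1 := by
    intro y y' hp hne hle
    refine p2 y y' hp (lt_of_le_of_ne hle fun h => hne ?_)
    exact pos.injective (pp_ext hp h)
  -- down- and up-closure in a piece
  have hNN : ∀ (x : Q) (y y' : {x : Q // x ∉ A}), (pos y).1 = (pos y').1 → y.1 < y'.1 →
      NN (A : Set Q) x y → NN (A : Set Q) x y' := by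
    intro x y y' hp hlt ⟨h5, h6⟩
    refine ⟨h5.trans hlt, ?_⟩
    by_cases h7 : Lw (A : Set Q) y'.1
    · exact Or.inr (Or.inl h7)
    rcases h6 with h6 | h6 | ⟨w, h8, h9, h10⟩
    · exact Or.inl h6
    · obtain ⟨w, h8, h9, h10⟩ := hbtw y y' hp h6 h7
      exact Or.inr (Or.inr ⟨w, h8, h5.trans h9, h10⟩)
    · exact Or.inr (Or.inr ⟨w, h8, h9, h10.trans hlt⟩)
  let dF : Q → JJ N → Finset {x : Q // x ∉ A} := fun x j =>
    Finset.univ.filter fun y => (pos y).1 = j ∧ y.1 < x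
  let eF : Q → JJ N → Finset {x : Q // x ∉ A} := fun x j =>
    Finset.univ.filter fun y => (pos y).1 = j ∧ NN (A : Set Q) x y.1
  let ix : Q → PP N ⊕ Fin A.card := fun x =>
    if h : x ∈ A then Sum.inr (f x) else Sum.inl (pos ⟨x, h⟩)
  have hix : ∀ x, bty B A.card (ix x) = bq x := by
    intro x
    by_cases h : x ∈ A
    · have h5 : ix x = Sum.inr (f x) := dif_pos h
      rw [h5, h2 x h]
      rfl
    · have h5 : ix x = Sum.inl (pos ⟨x, h⟩) := dif_neg h
      rw [h5]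
      exact h1 ⟨x, h⟩
  have hd : ∀ x j, (dF x j).card < aN j.1 (bty B A.card (ix x)) + 1 := by
    intro x j
    rw [hix]
    refine Nat.lt_succ_of_le (cnt_aN pos j (bq x) (dF x j) fun y hy => ?_)
    rw [Finset.mem_filter] at hy
    refine ⟨hy.2.1, ?_⟩
    rw [h1]
    exact h3 _ _ hy.2.2
  have he : ∀ x j, (eF x j).card < eN j.1 (bty B A.card (ix x)) + 1 := by
    intro x j
    rw [hix]
    refine Nat.lt_succ_of_le (cnt_eN pos j (bq x) (eF x j) fun y hy => ?_)
    rw [Finset.mem_filter] at hy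
    refine ⟨hy.2.1, ?_⟩
    rw [h1]
    exact h3 _ _ hy.2.2.1
  let lab : Q → CL N B A.card := fun x =>
    ⟨ix x, (fun j => ⟨(dF x j).card, hd x j⟩, fun j => ⟨(eF x j).card, he x j⟩)⟩
  refine scheme_embeds (conc N B A.card) Q (A : Set Q) hA' pos f pos.surjective pos.injective
    ?_ ?_ lab ?_ ?_ ?_ ?_
  · intro x y hx hy h
    by_contra hne
    rcases hf x y h with h5 | h5
    · exact hA hx hy hne h5
    · exact hA hy hx (Ne.symm hne) h5
  · intro x
    show blk (pos x) < B ↔ _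
    rw [h1]
    exact h4 x.1 x.2
  · intro x
    show ix x.1 = _
    exact dif_neg x.2
  · intro x hx
    show ix x = _
    exact dif_pos hx
  · intro x y
    show ((pos y).2 : ℕ) < (dF x (pos y).1).card ↔ y.1 < x
    refine rank_D pos (fun z => z.1 < x) ?_ (dF x (pos y).1) y ?_
    · intro z z' hp hle h
      by_cases hzz : z = z'
      · rw [hzz]
        exact h
      · exact (hcmp z z' hp hzz hle).trans h
    · intro z
      show z ∈ Finset.univ.filter _ ↔ _
      rw [Finset.mem_filter]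
      exact ⟨fun h => h.2, fun h => ⟨Finset.mem_univ _, h⟩⟩
  · intro x y
    show (pos y).1.1.1.1 ≤ ((pos y).2 : ℕ) + (eF x (pos y).1).card ↔ NN (A : Set Q) x y.1
    refine rank_E pos (fun z => NN (A : Set Q) x z.1) ?_ (eF x (pos y).1) y ?_
    · intro z z' hp hle h
      by_cases hzz : z = z'
      · rw [← hzz]
        exact h
      · exact hNN x z z' hp (hcmp z z' hp hzz hle) h
    · intro z
      show z ∈ Finset.univ.filter _ ↔ _
      rw [Finset.mem_filter]
      exact ⟨fun h => h.2, fun h => ⟨Finset.mem_univ _, h⟩⟩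

end Pool.Agent.BUp
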