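import Mathlib

/-!
# Refining a chain colouring to pieces of bounded size
-/

set_option autoImplicit false

open scoped BigOperators

namespace Pool.Agent.BUp

open Finset in
/-- A chain colouring with `w` colours can be refined to pieces of size at most `L`, grouped by
size. -/
theorem cut (Q : Type) [PartialOrder Q] [Fintype Q] (w : ℕ) (f : Q → Fin w)
    (hf : ∀ x y, f x = f y → x ≤ y ∨ y ≤ x) (L : ℕ) (hL : 0 < L) :
    ∃ (N : Fin L → ℕ) (ι : Q → Σ l : Fin L, Fin (N l)),
      (∀ x y, ι x = ι y → x ≤ y ∨ y ≤ x) ∧
      (∀ j : Σ l : Fin L, Fin (N l), Nat.card {x : Q // ι x = j} ≤ j.1.1 + 1) ∧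
      ∑ l, N l ≤ w + Fintype.card Q / L ∧
      ∑ l, N l * (l.1 + 1) ≤ Fintype.card Q := by
  classical
  set r : Q → ℕ := fun x => (univ.filter (fun y => f y = f x ∧ y < x)).card with hr
  have rlt : ∀ x y, f x = f y → x < y → r x < r y := by
    intro x y hxy hlt
    apply Finset.card_lt_card
    rw [Finset.ssubset_iff_of_subset]
    · exact ⟨x, by simp [hxy, hlt], by simp⟩
    · intro z hz
      simp only [mem_filter, mem_univ, true_and] at hz ⊢
      exact ⟨hz.1.trans hxy, hz.2.trans hlt⟩
  have rinj : ∀ x y, f x = f y → r x = r y → x = y := by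
    intro x y hxy he
    by_contra hne
    rcases hf x y hxy with h | h
    · have := rlt x y hxy (lt_of_le_of_ne h hne)
      omega
    · have := rlt y x hxy.symm (lt_of_le_of_ne h (Ne.symm hne))
      omega
  have rle : ∀ x, r x ≤ (univ.filter (fun y => f y = f x)).card := by
    intro x
    apply Finset.card_le_card
    intro z hz
    simp only [mem_filter, mem_univ, true_and] at hz ⊢
    exact hz.1
  set k : Q → Fin w × ℕ := fun x => (f x, r x / L) with hk
  set K : Finset (Fin w × ℕ) := univ.image k with hK
  have kmem : ∀ x, k x ∈ K := fun x => Finset.mem_image_of_mem k (mem_univ x)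
  set s : Fin w × ℕ → ℕ := fun κ => (univ.filter (fun x => k x = κ)).card with hs
  have s_pos : ∀ κ ∈ K, 1 ≤ s κ := by
    intro κ hκ
    obtain ⟨x, -, rfl⟩ := Finset.mem_image.1 hκ
    exact Finset.card_pos.2 ⟨x, by simp⟩
  have s_le : ∀ κ, s κ ≤ L := by
    intro κ
    have h1 := Finset.card_le_card_of_injOn (s := univ.filter (fun x => k x = κ))
      (t := Finset.Ico (κ.2 * L) (κ.2 * L + L)) r
      (by
        intro x hx
        simp only [coe_filter, mem_univ, true_and, Set.mem_setOf_eq] at hx
        have h2 : r x / L = κ.2 := by rw [← hx]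
        simp only [coe_Ico, Set.mem_Ico]
        rw [← h2]
        constructor
        · exact Nat.div_mul_le_self _ _
        · have := Nat.lt_div_mul_add hL (a := r x)
          exact this)
      (by
        intro x hx y hy he
        simp only [coe_filter, mem_univ, true_and, Set.mem_setOf_eq] at hx hy
        have h3 : f x = f y := by
          have := hx.trans hy.symm
          exact congrArg Prod.fst this
        exact rinj x y h3 he)
    simpa using h1
  have cardK : K.card ≤ w + Fintype.card Q / L := by
    have h1 : K.card = ∑ i : Fin w, (K.filter (fun κ => κ.1 = i)).card :=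
      Finset.card_eq_sum_card_fiberwise (fun κ _ => Finset.mem_coe.2 (mem_univ _))
    have h2 : ∀ i : Fin w, (K.filter (fun κ => κ.1 = i)).card ≤
        (univ.filter (fun y => f y = i)).card / L + 1 := by
      intro i
      have h3 : K.filter (fun κ => κ.1 = i) ⊆
          (range ((univ.filter (fun y => f y = i)).card / L + 1)).image (fun m => (i, m)) := by
        intro κ hκ
        rw [mem_filter] at hκ
        obtain ⟨x, -, rfl⟩ := Finset.mem_image.1 hκ.1
        have hi : f x = i := hκ.2
        refine Finset.mem_image.2 ⟨r x / L, ?_, ?_⟩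
        · rw [mem_range, Nat.lt_succ_iff]
          apply Nat.div_le_div_right
          rw [← hi]
          exact rle x
        · rw [hk]
          simp [hi]
      calc _ ≤ _ := Finset.card_le_card h3
        _ ≤ _ := Finset.card_image_le
        _ = _ := by simp
    have h4 : ∑ i : Fin w, (univ.filter (fun y => f y = i)).card = Fintype.card Q := by
      have := Finset.card_eq_sum_card_fiberwise (s := (univ : Finset Q)) (t := univ) (f := f)
        (fun κ _ => Finset.mem_coe.2 (mem_univ _))
      rw [← this]
      simp
    have h5 : ∑ i : Fin w, (univ.filter (fun y => f y = i)).card / L ≤ Fintype.card Q / L := by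
      rw [Nat.le_div_iff_mul_le hL, Finset.sum_mul, ← h4]
      exact Finset.sum_le_sum fun i _ => Nat.div_mul_le_self _ _
    rw [h1]
    calc _ ≤ ∑ i : Fin w, ((univ.filter (fun y => f y = i)).card / L + 1) :=
          Finset.sum_le_sum fun i _ => h2 i
      _ = ∑ i : Fin w, (univ.filter (fun y => f y = i)).card / L + w := by
          rw [Finset.sum_add_distrib]; simp
      _ ≤ w + Fintype.card Q / L := by omega
  let lvl : K → Fin L := fun κ => ⟨s κ.1 - 1, by
    have := s_pos κ.1 κ.2
    have := s_le κ.1
    omega⟩
  let N : Fin L → ℕ := fun l => Fintype.card {κ : K // lvl κ = l}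
  let E : K ≃ Σ l : Fin L, Fin (N l) :=
    (Equiv.sigmaFiberEquiv lvl).symm.trans (Equiv.sigmaCongrRight fun l => Fintype.equivFin _)
  have E1 : ∀ κ, (E κ).1 = lvl κ := fun κ => rfl
  let ι : Q → Σ l : Fin L, Fin (N l) := fun x => E ⟨k x, kmem x⟩
  have fib : ∀ j, Nat.card {x : Q // ι x = j} = j.1.1 + 1 := by
    intro j
    obtain ⟨κ, rfl⟩ := E.surjective j
    have h1 : ∀ x, ι x = E κ ↔ k x = κ.1 := by
      intro x
      constructor
      · intro h
        have := E.injective h
        exact congrArg Subtype.val this
      · intro h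
        exact congrArg E (Subtype.ext h)
    have h2 : Nat.card {x : Q // ι x = E κ} = s κ.1 := by
      rw [Nat.card_congr (Equiv.subtypeEquivRight h1), Nat.card_eq_fintype_card,
        Fintype.card_subtype]
    rw [h2, E1]
    have := s_pos κ.1 κ.2
    show s κ.1 = s κ.1 - 1 + 1
    omega
  refine ⟨N, ι, ?_, fun j => (fib j).le, ?_, ?_⟩
  · intro x y h
    have h1 := E.injective h
    have h2 : k x = k y := congrArg Subtype.val h1
    exact hf x y (congrArg Prod.fst h2)
  · have h1 : Fintype.card K = ∑ l, N l := by
      rw [Fintype.card_congr E, Fintype.card_sigma]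
      simp
    rw [← h1]
    simpa using cardK
  · have h1 : Fintype.card Q = ∑ l, N l * (l.1 + 1) := by
      rw [← Fintype.card_congr (Equiv.sigmaFiberEquiv ι), Fintype.card_sigma]
      have h2 : ∀ j : Σ l : Fin L, Fin (N l), Fintype.card {x : Q // ι x = j} = j.1.1 + 1 := by
        intro j
        rw [← Nat.card_eq_fintype_card]
        exact fib j
      rw [Finset.sum_congr rfl fun j _ => h2 j, Fintype.sum_sigma]
      simp
    rw [← h1]

end Pool.Agent.BUp
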