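import Mathlib

/-!
# Refining a chain colouring to pieces of size at most six, with types

A chain colouring is refined to pieces of size at most 6; the type of a piece is its size together with the
sequence of the block numbers along the piece. At most one piece of each colour has fewer than 6 elements.
-/

set_option autoImplicit false

open scoped BigOperators

namespace Pool.Agent.BUp

open Finset in
/-- A chain colouring is refined to pieces of size at most 6. Each piece has a type: its size `c` and the sequence
of the values of `bl` along the piece. `N θ` is the number of pieces of type `θ`; at most `w` pieces have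
fewer than 6 elements. (file Cut6.lean) -/
theorem cut6 (R : Type) [PartialOrder R] [Fintype R] (w : ℕ) (f : R → Fin w)
    (hf : ∀ x y, f x = f y → x ≤ y ∨ y ≤ x) (β : ℕ) (bl : R → Fin β) :
    ∃ (N : (Σ c : Fin 7, (Fin c.1 → Fin β)) → ℕ)
      (pos : R ≃ Σ j : (Σ θ : (Σ c : Fin 7, (Fin c.1 → Fin β)), Fin (N θ)), Fin j.1.1.1),
      (∀ x y, (pos x).1 = (pos y).1 → f x = f y) ∧
      (∀ x y, (pos x).1 = (pos y).1 → ((pos x).2 : ℕ) < ((pos y).2 : ℕ) → x < y) ∧
      (∀ x, (pos x).1.1.2 (pos x).2 = bl x) ∧
      (∑ θ : (Σ c : Fin 7, (Fin c.1 → Fin β)), if θ.1.1 < 6 then N θ else 0) ≤ w := by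
  classical
  -- the rank in the colour class
  set r : R → ℕ := fun x => (univ.filter (fun y => f y = f x ∧ y < x)).card with hr
  have rlt : ∀ x y, f x = f y → x < y → r x < r y := by
    intro x y hxy hlt
    apply Finset.card_lt_card
    rw [Finset.ssubset_iff_of_subset]
    · exact ⟨x, by simp [hxy, hlt], by simp⟩
    · intro z hz
      simp only [mem_filter, mem_univ, true_and] at hz ⊢
      exact ⟨hz.1.trans hxy, hz.2.trans hlt⟩
  have rinj : ∀ x y, f x = f y → r x = r y → x = y := by
    intro x y hxy he
    by_contra hne
    rcases hf x y hxy with h | h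
    · have := rlt x y hxy (lt_of_le_of_ne h hne)
      omega
    · have := rlt y x hxy.symm (lt_of_le_of_ne h (Ne.symm hne))
      omega
  -- every value below a rank that occurs in a colour class occurs there too
  have rsurj : ∀ x m, m ≤ r x → ∃ y, f y = f x ∧ r y = m := by
    intro x m hm
    have h1 : ((univ.filter (fun y => f y = f x)).image r) ⊆
        range (univ.filter (fun y => f y = f x)).card := by
      intro v hv
      obtain ⟨y, hy, rfl⟩ := Finset.mem_image.1 hv
      have hy' : f y = f x := by simpa using hy
      rw [mem_range]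
      apply Finset.card_lt_card
      rw [Finset.ssubset_iff_of_subset]
      · exact ⟨y, by simp [hy'], by simp⟩
      · intro z hz
        simp only [mem_filter, mem_univ, true_and] at hz ⊢
        exact hz.1.trans hy'
    have h2 : ((univ.filter (fun y => f y = f x)).image r).card =
        (univ.filter (fun y => f y = f x)).card := by
      apply Finset.card_image_of_injOn
      intro a ha c hc hac
      simp only [coe_filter, mem_univ, true_and, Set.mem_ofPred_eq] at ha hc
      exact rinj a c (ha.trans hc.symm) hac
    have h3 : ((univ.filter (fun y => f y = f x)).image r) =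
        range (univ.filter (fun y => f y = f x)).card :=
      Finset.eq_of_subset_of_card_le h1 (by rw [h2, card_range])
    have h4 : r x ∈ ((univ.filter (fun y => f y = f x)).image r) :=
      Finset.mem_image_of_mem r (by simp)
    have h5 : m ∈ ((univ.filter (fun y => f y = f x)).image r) := by
      rw [h3, mem_range] at h4 ⊢
      omega
    obtain ⟨y, hy, hym⟩ := Finset.mem_image.1 h5
    exact ⟨y, by simpa using hy, hym⟩
  -- the key
  set k : R → Fin w × ℕ := fun x => (f x, r x / 6) with hk
  set K : Finset (Fin w × ℕ) := univ.image k with hK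
  have kmem : ∀ x, k x ∈ K := fun x => Finset.mem_image_of_mem k (mem_univ x)
  set s : Fin w × ℕ → ℕ := fun κ => (univ.filter (fun x => k x = κ)).card with hs
  have s_le : ∀ κ, s κ ≤ 6 := by
    intro κ
    have h1 := Finset.card_le_card_of_injOn (s := univ.filter (fun x => k x = κ))
      (t := Finset.Ico (κ.2 * 6) (κ.2 * 6 + 6)) r
      (by
        intro x hx
        simp only [coe_filter, mem_univ, true_and, Set.mem_ofPred_eq] at hx
        have h2 : r x / 6 = κ.2 := by rw [← hx]
        simp only [coe_Ico, Set.mem_Ico]
        omega)
      (by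
        intro x hx y hy he
        simp only [coe_filter, mem_univ, true_and, Set.mem_ofPred_eq] at hx hy
        have h3 : f x = f y := by
          have := hx.trans hy.symm
          exact congrArg Prod.fst this
        exact rinj x y h3 he)
    simpa using h1
  -- a fibre below another one of the same colour is full
  have full : ∀ κ : Fin w × ℕ, ∀ x, f x = κ.1 → κ.2 < r x / 6 → 6 ≤ s κ := by
    intro κ x hx hlt
    have h1 : Finset.Ico (κ.2 * 6) (κ.2 * 6 + 6) ⊆ (univ.filter (fun x => k x = κ)).image r := by
      intro v hv
      rw [Finset.mem_Ico] at hv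
      obtain ⟨y, hy, hyv⟩ := rsurj x v (by omega)
      refine Finset.mem_image.2 ⟨y, ?_, hyv⟩
      simp only [mem_filter, mem_univ, true_and]
      rw [hk]
      refine Prod.ext (hy.trans hx) ?_
      show r y / 6 = κ.2
      omega
    have h2 := Finset.card_le_card h1
    have h3 : ((univ.filter (fun x => k x = κ)).image r).card ≤ s κ := Finset.card_image_le
    simp only [Nat.card_Ico] at h2
    omega
  have small : (K.filter (fun κ => s κ < 6)).card ≤ w := by
    have h1 := Finset.card_le_card_of_injOn (s := K.filter (fun κ => s κ < 6))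
      (t := (univ : Finset (Fin w))) Prod.fst (fun _ _ => by simp)
      (by
        intro κ hκ κ' hκ' he
        simp only [coe_filter, Set.mem_ofPred_eq] at hκ hκ'
        obtain ⟨x, -, hx⟩ := Finset.mem_image.1 hκ.1
        obtain ⟨x', -, hx'⟩ := Finset.mem_image.1 hκ'.1
        have e1 : f x = κ.1 := by rw [← hx]
        have e2 : r x / 6 = κ.2 := by rw [← hx]
        have e3 : f x' = κ'.1 := by rw [← hx']
        have e4 : r x' / 6 = κ'.2 := by rw [← hx']
        refine Prod.ext he ?_
        rcases lt_trichotomy κ.2 κ'.2 with h | h | h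
        · have := full κ x' (e3.trans he.symm) (by omega)
          omega
        · exact h
        · have := full κ' x (e1.trans he) (by omega)
          omega)
    simpa using h1
  -- the rank in the fibre
  set t : R → ℕ := fun x => (univ.filter (fun y => k y = k x ∧ y < x)).card with ht
  have tlt : ∀ x, t x < s (k x) := by
    intro x
    apply Finset.card_lt_card
    rw [Finset.ssubset_iff_of_subset]
    · exact ⟨x, by simp, by simp⟩
    · intro z hz
      simp only [mem_filter, mem_univ, true_and] at hz ⊢
      exact hz.1
  have tmono : ∀ x y, k x = k y → x < y → t x < t y := by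
    intro x y hxy hlt
    apply Finset.card_lt_card
    rw [Finset.ssubset_iff_of_subset]
    · exact ⟨x, by simp [hxy, hlt], by simp⟩
    · intro z hz
      simp only [mem_filter, mem_univ, true_and] at hz ⊢
      exact ⟨hz.1.trans hxy, hz.2.trans hlt⟩
  have tback : ∀ x y, k x = k y → t x < t y → x < y := by
    intro x y hxy hlt
    have hne : x ≠ y := by
      rintro rfl
      omega
    rcases hf x y (congrArg Prod.fst hxy) with h | h
    · exact lt_of_le_of_ne h hne
    · have := tmono y x hxy.symm (lt_of_le_of_ne h (Ne.symm hne))
      omega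
  have tinj : ∀ x y, k x = k y → t x = t y → x = y := by
    intro x y hxy he
    by_contra hne
    rcases hf x y (congrArg Prod.fst hxy) with h | h
    · have := tmono x y hxy (lt_of_le_of_ne h hne)
      omega
    · have := tmono y x hxy.symm (lt_of_le_of_ne h (Ne.symm hne))
      omega
  -- keys as a type
  let kk : R → K := fun x => ⟨k x, kmem x⟩
  let e0 : ∀ κ : K, {x : R // kk x = κ} → Fin (s κ.1) := fun κ x =>
    ⟨t x.1, by
      have h1 := tlt x.1
      have h2 : k x.1 = κ.1 := congrArg Subtype.val x.2
      rw [← h2]
      exact h1⟩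
  have e0bij : ∀ κ : K, Function.Bijective (e0 κ) := by
    intro κ
    rw [Fintype.bijective_iff_injective_and_card]
    constructor
    · intro x y hxy
      have h1 : k x.1 = κ.1 := congrArg Subtype.val x.2
      have h2 : k y.1 = κ.1 := congrArg Subtype.val y.2
      apply Subtype.ext
      exact tinj x.1 y.1 (h1.trans h2.symm) (congrArg Fin.val hxy)
    · rw [Fintype.card_fin, Fintype.card_subtype]
      apply congrArg Finset.card
      ext x
      simp only [mem_filter, mem_univ, true_and]
      constructor
      · intro h
        exact congrArg Subtype.val h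
      · intro h
        exact Subtype.ext h
  let e : ∀ κ : K, {x : R // kk x = κ} ≃ Fin (s κ.1) := fun κ => Equiv.ofBijective (e0 κ) (e0bij κ)
  let ty : K → (Σ c : Fin 7, (Fin c.1 → Fin β)) := fun κ =>
    ⟨⟨s κ.1, by have := s_le κ.1; omega⟩, fun i => bl ((e κ).symm i).1⟩
  let N : (Σ c : Fin 7, (Fin c.1 → Fin β)) → ℕ := fun θ => Fintype.card {κ : K // ty κ = θ}
  let E : K ≃ Σ θ : (Σ c : Fin 7, (Fin c.1 → Fin β)), Fin (N θ) :=
    (Equiv.sigmaFiberEquiv ty).symm.trans (Equiv.sigmaCongrRight fun θ => Fintype.equivFin _)
  let pos : R ≃ Σ j : (Σ θ : (Σ c : Fin 7, (Fin c.1 → Fin β)), Fin (N θ)), Fin j.1.1.1 :=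
    ((Equiv.sigmaFiberEquiv kk).symm.trans (Equiv.sigmaCongrRight e)).trans
      (Equiv.sigmaCongrLeft (β := fun j : (Σ θ : (Σ c : Fin 7, (Fin c.1 → Fin β)), Fin (N θ)) =>
        Fin j.1.1.1) E)
  have pos1 : ∀ x, (pos x).1 = E (kk x) := fun x => rfl
  have pos2 : ∀ x, ((pos x).2 : ℕ) = t x := fun x => rfl
  have keq : ∀ x y, (pos x).1 = (pos y).1 → k x = k y := by
    intro x y h
    rw [pos1, pos1] at h
    exact congrArg Subtype.val (E.injective h)
  refine ⟨N, pos, ?_, ?_, ?_, ?_⟩
  · intro x y h
    exact congrArg Prod.fst (keq x y h)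
  · intro x y h hlt
    rw [pos2, pos2] at hlt
    exact tback x y (keq x y h) hlt
  · intro x
    show bl ((e (kk x)).symm (e (kk x) ⟨x, rfl⟩)).1 = bl x
    rw [Equiv.symm_apply_apply]
  · have h1 : (univ.filter (fun κ : K => s κ.1 < 6)).card =
        ∑ θ : (Σ c : Fin 7, (Fin c.1 → Fin β)), if θ.1.1 < 6 then N θ else 0 := by
      rw [Finset.card_eq_sum_card_fiberwise (f := ty) (t := univ)
        (fun κ _ => Finset.mem_coe.2 (mem_univ _))]
      refine Finset.sum_congr rfl fun θ _ => ?_
      split_ifs with h
      · show _ = Fintype.card {κ : K // ty κ = θ}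
        rw [Fintype.card_subtype]
        apply congrArg Finset.card
        ext κ
        simp only [mem_filter, mem_univ, true_and]
        constructor
        · intro hκ
          exact hκ.2
        · intro hκ
          refine ⟨?_, hκ⟩
          have h2 : (ty κ).1.1 < 6 := by rw [hκ]; exact h
          exact h2
      · rw [Finset.card_eq_zero]
        apply Finset.eq_empty_of_forall_notMem
        intro κ hκ
        simp only [mem_filter, mem_univ, true_and] at hκ
        apply h
        rw [← hκ.2]
        exact hκ.1
    rw [← h1]
    refine le_trans ?_ small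
    have h2 : (univ.filter (fun κ : K => s κ.1 < 6)).card ≤ (K.filter (fun κ => s κ < 6)).card := by
      apply Finset.card_le_card_of_injOn (fun κ : K => κ.1)
      · intro κ hκ
        simp only [coe_filter, mem_univ, true_and, Set.mem_ofPred_eq] at hκ
        simp only [coe_filter, Set.mem_ofPred_eq]
        exact ⟨κ.2, hκ⟩
      · intro κ _ κ' _ h
        exact Subtype.ext h
    exact h2

end Pool.Agent.BUp
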