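import Mathlib

/-!
# Dilworth's theorem (Galvin's proof)
-/

set_option autoImplicit false

namespace Pool.Agent.BUp

open Finset in
private theorem dil_aux (α : Type) [PartialOrder α] :
    ∀ (n : ℕ) (S : Finset α), S.card = n →
      ∃ (A : Finset α) (f : α → ℕ), A ⊆ S ∧ IsAntichain (· ≤ ·) (A : Set α) ∧
        (∀ x ∈ S, f x < A.card) ∧ ∀ x ∈ S, ∀ y ∈ S, f x = f y → x ≤ y ∨ y ≤ x := by
  classical
  intro n
  induction n using Nat.strong_induction_on with
  | _ n ih =>
  intro S hS
  rcases S.eq_empty_or_nonempty with rfl | hne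
  · exact ⟨∅, fun _ => 0, by simp, by simp, by simp, by simp⟩
  obtain ⟨a, ha⟩ := S.exists_maximal hne
  have haS : a ∈ S := ha.1
  have hamax : ∀ z ∈ S, a ≤ z → z = a := fun z hz h => le_antisymm (ha.2 hz h) h
  set S' := S.erase a with hS'
  have hS'S : S' ⊆ S := Finset.erase_subset _ _
  have hcard' : S'.card < n := by rw [← hS]; exact Finset.card_erase_lt_of_mem haS
  obtain ⟨A0, f0, hA0S, hA0, hf0lt, hf0⟩ := ih _ hcard' S' rfl
  set k := A0.card with hk
  -- antichains in S' of size k meet every class; antichains have size at most k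
  have hinj : ∀ B : Finset α, B ⊆ S' → IsAntichain (· ≤ ·) (B : Set α) →
      Set.InjOn f0 (B : Set α) := by
    intro B hB hanti x hx y hy hxy
    by_contra hne'
    rcases hf0 x (hB hx) y (hB hy) hxy with h | h
    · exact hanti hx hy hne' h
    · exact hanti hy hx (Ne.symm hne') h
  have hle : ∀ B : Finset α, B ⊆ S' → IsAntichain (· ≤ ·) (B : Set α) → B.card ≤ k := by
    intro B hB hanti
    have := Finset.card_le_card_of_injOn (s := B) (t := Finset.range k) f0
      (fun x hx => by
        have := hf0lt x (hB hx)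
        simpa using this) (hinj B hB hanti)
    simpa using this
  have hmeet : ∀ B : Finset α, B ⊆ S' → IsAntichain (· ≤ ·) (B : Set α) → B.card = k →
      ∀ i < k, ∃ y ∈ B, f0 y = i := by
    intro B hB hanti hBk i hi
    have h1 : B.image f0 = Finset.range k := by
      apply Finset.eq_of_subset_of_card_le
      · intro v hv
        obtain ⟨y, hy, rfl⟩ := Finset.mem_image.1 hv
        exact Finset.mem_range.2 (hf0lt y (hB hy))
      · rw [Finset.card_image_of_injOn (hinj B hB hanti), hBk, Finset.card_range]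
    have h2 : i ∈ B.image f0 := by rw [h1]; exact Finset.mem_range.2 hi
    obtain ⟨y, hy, hyi⟩ := Finset.mem_image.1 h2
    exact ⟨y, hy, hyi⟩
  -- the top element of each class that lies on an antichain of size k
  have hx : ∀ i : ℕ, ∃ x : α, i < k → (x ∈ S' ∧ f0 x = i ∧
      (∃ B : Finset α, B ⊆ S' ∧ IsAntichain (· ≤ ·) (B : Set α) ∧ B.card = k ∧ x ∈ B) ∧
      ∀ y ∈ S', f0 y = i → (∃ B : Finset α, B ⊆ S' ∧ IsAntichain (· ≤ ·) (B : Set α) ∧
        B.card = k ∧ y ∈ B) → y ≤ x) := by
    intro i
    by_cases hi : i < k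
    · set T := S'.filter (fun y => f0 y = i ∧ ∃ B : Finset α, B ⊆ S' ∧
        IsAntichain (· ≤ ·) (B : Set α) ∧ B.card = k ∧ y ∈ B) with hT
      have hTne : T.Nonempty := by
        obtain ⟨y, hy, hyi⟩ := hmeet A0 hA0S hA0 rfl i hi
        exact ⟨y, Finset.mem_filter.2 ⟨hA0S hy, hyi, A0, hA0S, hA0, rfl, hy⟩⟩
      obtain ⟨x, hxT⟩ := T.exists_maximal hTne
      have hx1 := Finset.mem_filter.1 hxT.1
      refine ⟨x, fun _ => ⟨hx1.1, hx1.2.1, hx1.2.2, ?_⟩⟩
      intro y hy hyi hyB
      have hyT : y ∈ T := Finset.mem_filter.2 ⟨hy, hyi, hyB⟩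
      rcases hf0 x hx1.1 y hy (hx1.2.1.trans hyi.symm) with h | h
      · exact hxT.2 hyT h
      · exact h
    · exact ⟨a, fun h => absurd h hi⟩
  choose x hx using hx
  set A := (Finset.range k).image x with hA
  have hAS' : A ⊆ S' := by
    intro z hz
    obtain ⟨i, hi, rfl⟩ := Finset.mem_image.1 hz
    exact (hx i (Finset.mem_range.1 hi)).1
  have hAcard : A.card = k := by
    rw [hA, Finset.card_image_of_injOn, Finset.card_range]
    intro i hi j hj hij
    have h1 := (hx i (by simpa using hi)).2.1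
    have h2 := (hx j (by simpa using hj)).2.1
    have hij' : x i = x j := hij
    rw [← h1, ← h2, hij']
  have hAanti : IsAntichain (· ≤ ·) (A : Set α) := by
    intro u hu v hv huv hle'
    obtain ⟨i, hi, rfl⟩ := Finset.mem_image.1 (Finset.mem_coe.1 hu)
    obtain ⟨j, hj, rfl⟩ := Finset.mem_image.1 (Finset.mem_coe.1 hv)
    have hi' := Finset.mem_range.1 hi
    have hj' := Finset.mem_range.1 hj
    obtain ⟨B, hBS, hBanti, hBk, hxB⟩ := (hx j hj').2.2.1
    obtain ⟨y, hyB, hyi⟩ := hmeet B hBS hBanti hBk i hi'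
    have h1 : y ≤ x i := (hx i hi').2.2.2 y (hBS hyB) hyi ⟨B, hBS, hBanti, hBk, hyB⟩
    have hne' : y ≠ x j := by
      intro h
      have h2 : f0 y = j := by rw [h]; exact (hx j hj').2.1
      apply huv
      rw [← hyi, h2]
    exact hBanti (Finset.mem_coe.2 hyB) (Finset.mem_coe.2 hxB) hne' (h1.trans hle')
  by_cases hcase : ∃ i < k, x i ≤ a
  · obtain ⟨i, hi, hxia⟩ := hcase
    set K := S.filter (fun z => z = a ∨ (f0 z = i ∧ z ≤ x i)) with hK
    set S2 := S \ K with hS2
    have haK : a ∈ K := Finset.mem_filter.2 ⟨haS, Or.inl rfl⟩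
    have hS2S' : S2 ⊆ S' := by
      intro z hz
      obtain ⟨h1, h2⟩ := Finset.mem_sdiff.1 hz
      refine Finset.mem_erase.2 ⟨?_, h1⟩
      rintro rfl
      exact h2 haK
    have hcard2 : S2.card < n := lt_of_le_of_lt (Finset.card_le_card hS2S') hcard'
    obtain ⟨A1, f1, hA1S, hA1, hf1lt, hf1⟩ := ih _ hcard2 S2 rfl
    have hA1k : A1.card < k := by
      rcases lt_or_eq_of_le (hle A1 (hA1S.trans hS2S') hA1) with h | h
      · exact h
      · exfalso
        obtain ⟨y, hyA, hyi⟩ := hmeet A1 (hA1S.trans hS2S') hA1 h i hi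
        have h1 : y ≤ x i := (hx i hi).2.2.2 y (hS2S' (hA1S hyA)) hyi
          ⟨A1, hA1S.trans hS2S', hA1, h, hyA⟩
        have h2 := Finset.mem_sdiff.1 (hA1S hyA)
        exact h2.2 (Finset.mem_filter.2 ⟨h2.1, Or.inr ⟨hyi, h1⟩⟩)
    refine ⟨A, fun z => if z ∈ K then k - 1 else f1 z, hAS'.trans hS'S, hAanti, ?_, ?_⟩
    · intro z hz
      rw [hAcard]
      show (if z ∈ K then k - 1 else f1 z) < k
      split_ifs with h
      · omega
      · have := hf1lt z (Finset.mem_sdiff.2 ⟨hz, h⟩)
        omega
    · intro z hz w hw hzw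
      have hzw' : (if z ∈ K then k - 1 else f1 z) = (if w ∈ K then k - 1 else f1 w) := hzw
      by_cases h1 : z ∈ K
      · by_cases h2 : w ∈ K
        · obtain ⟨-, h3⟩ := Finset.mem_filter.1 h1
          obtain ⟨-, h4⟩ := Finset.mem_filter.1 h2
          by_cases hza : z = a
          · by_cases hwa : w = a
            · rw [hza, hwa]; exact Or.inl le_rfl
            · rcases h4 with h4 | h4
              · exact absurd h4 hwa
              · rw [hza]; exact Or.inr (h4.2.trans hxia)
          · rcases h3 with h3 | h3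
            · exact absurd h3 hza
            · by_cases hwa : w = a
              · rw [hwa]; exact Or.inl (h3.2.trans hxia)
              · rcases h4 with h4 | h4
                · exact absurd h4 hwa
                · exact hf0 z (Finset.mem_erase.2 ⟨hza, hz⟩) w (Finset.mem_erase.2 ⟨hwa, hw⟩)
                    (h3.1.trans h4.1.symm)
        · exfalso
          rw [if_pos h1, if_neg h2] at hzw'
          have := hf1lt w (Finset.mem_sdiff.2 ⟨hw, h2⟩)
          omega
      · by_cases h2 : w ∈ K
        · exfalso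
          rw [if_neg h1, if_pos h2] at hzw'
          have := hf1lt z (Finset.mem_sdiff.2 ⟨hz, h1⟩)
          omega
        · rw [if_neg h1, if_neg h2] at hzw'
          exact hf1 z (Finset.mem_sdiff.2 ⟨hz, h1⟩) w (Finset.mem_sdiff.2 ⟨hw, h2⟩) hzw'
  · push Not at hcase
    have haA : a ∉ A := fun h => Finset.notMem_erase a S (hAS' h)
    refine ⟨insert a A, fun z => if z = a then k else f0 z, ?_, ?_, ?_, ?_⟩
    · intro z hz
      rcases Finset.mem_insert.1 hz with rfl | h
      · exact haS
      · exact hS'S (hAS' h)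
    · intro u hu v hv huv hle'
      rcases Finset.mem_insert.1 (Finset.mem_coe.1 hu) with rfl | hu'
      · rcases Finset.mem_insert.1 (Finset.mem_coe.1 hv) with rfl | hv'
        · exact huv rfl
        · exact huv (hamax v (hS'S (hAS' hv')) hle').symm
      · rcases Finset.mem_insert.1 (Finset.mem_coe.1 hv) with rfl | hv'
        · obtain ⟨i, hi, rfl⟩ := Finset.mem_image.1 hu'
          exact hcase i (Finset.mem_range.1 hi) hle'
        · exact hAanti (Finset.mem_coe.2 hu') (Finset.mem_coe.2 hv') huv hle'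
    · intro z hz
      rw [Finset.card_insert_of_notMem haA, hAcard]
      show (if z = a then k else f0 z) < k + 1
      split_ifs with h
      · omega
      · have := hf0lt z (Finset.mem_erase.2 ⟨h, hz⟩)
        omega
    · intro z hz w hw hzw
      have hzw' : (if z = a then k else f0 z) = (if w = a then k else f0 w) := hzw
      by_cases h1 : z = a
      · by_cases h2 : w = a
        · rw [h1, h2]; exact Or.inl le_rfl
        · exfalso
          rw [if_pos h1, if_neg h2] at hzw'
          have := hf0lt w (Finset.mem_erase.2 ⟨h2, hw⟩)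
          omega
      · by_cases h2 : w = a
        · exfalso
          rw [if_neg h1, if_pos h2] at hzw'
          have := hf0lt z (Finset.mem_erase.2 ⟨h1, hz⟩)
          omega
        · rw [if_neg h1, if_neg h2] at hzw'
          exact hf0 z (Finset.mem_erase.2 ⟨h1, hz⟩) w (Finset.mem_erase.2 ⟨h2, hw⟩) hzw'

/-- Dilworth's theorem: an antichain and a colouring by the elements of the antichain whose
classes are chains. (file Dil.lean) -/
theorem dilworth (α : Type) [PartialOrder α] [Fintype α] :
    ∃ (A : Finset α) (f : α → Fin A.card), IsAntichain (· ≤ ·) (A : Set α) ∧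
      ∀ x y, f x = f y → x ≤ y ∨ y ≤ x := by
  obtain ⟨A, f, -, hA, hlt, hf⟩ := dil_aux α _ (Finset.univ : Finset α) rfl
  exact ⟨A, fun x => ⟨f x, hlt x (Finset.mem_univ x)⟩, hA, fun x y h =>
    hf x (Finset.mem_univ x) y (Finset.mem_univ y) (congrArg Fin.val h)⟩

end Pool.Agent.BUp
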