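import Pool.Agent.Lib_MP_390115_up.CDef

/-!
# The number of positions of a given block
-/

namespace Pool.Agent.BUp

open Pool.Agent.Lib_MP_390115_co (CoverEmbeds IsCoverUniversal b)

/-- the number of positions of a given block -/
theorem pos_counts {β : ℕ} (N : Th β → ℕ) (R : Type) [Fintype R] (pos : R ≃ PP N)
    (bl : R → Fin β) (hbl : ∀ x, (pos x).1.1.2 (pos x).2 = bl x) :
    (∑ θ, N θ * θ.1.1) = Fintype.card R ∧
      ∀ k : ℕ, ∑ θ : Th β, N θ * (Finset.univ.filter fun t => (θ.2 t : ℕ) = k).card =
        (Finset.univ.filter fun x : R => (bl x : ℕ) = k).card := by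
  classical
  constructor
  · have h2 : Fintype.card (PP N) = ∑ θ : Th β, ∑ _i : Fin (N θ), (θ.1.1 : ℕ) := by
      rw [Fintype.card_sigma, ← Finset.univ_sigma_univ, Finset.sum_sigma]
      refine Finset.sum_congr rfl fun θ _ => Finset.sum_congr rfl fun i _ => ?_
      exact Fintype.card_fin _
    rw [Fintype.card_congr pos, h2]
    refine Finset.sum_congr rfl fun θ _ => ?_
    simp only [Finset.sum_const, Finset.card_univ, Fintype.card_fin, smul_eq_mul]
  · intro k
    have h1 : (Finset.univ.filter fun x : R => (bl x : ℕ) = k).card =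
        (Finset.univ.filter fun p : PP N => (p.1.1.2 p.2 : ℕ) = k).card := by
      refine Finset.card_bij (fun x _ => pos x) ?_ ?_ ?_
      · intro x hx
        rw [Finset.mem_filter] at hx ⊢
        exact ⟨Finset.mem_univ _, by rw [hbl x]; exact hx.2⟩
      · intro x _ y _ h
        exact pos.injective h
      · intro p hp
        rw [Finset.mem_filter] at hp
        refine ⟨pos.symm p, ?_, pos.apply_symm_apply p⟩
        rw [Finset.mem_filter]
        refine ⟨Finset.mem_univ _, ?_⟩
        rw [← hbl, pos.apply_symm_apply]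
        exact hp.2
    have h2 : (Finset.univ.filter fun p : PP N => (p.1.1.2 p.2 : ℕ) = k).card =
        ∑ θ : Th β, ∑ _i : Fin (N θ), (Finset.univ.filter fun t => (θ.2 t : ℕ) = k).card := by
      rw [Finset.card_filter, ← Finset.univ_sigma_univ, Finset.sum_sigma,
        ← Finset.univ_sigma_univ, Finset.sum_sigma]
      refine Finset.sum_congr rfl fun θ _ => Finset.sum_congr rfl fun i _ => ?_
      rw [Finset.card_filter]
    rw [h1, h2]
    refine Finset.sum_congr rfl fun θ _ => ?_
    simp only [Finset.sum_const, Finset.card_univ, Fintype.card_fin, smul_eq_mul]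

end Pool.Agent.BUp
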