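import Pool.Agent.Lib_MP_390115_up.Conc
import Pool.Agent.Lib_MP_390115_up.Cut6
import Pool.Agent.Lib_MP_390115_up.Card6
import Pool.Agent.Lib_MP_390115_up.Blocks
import Pool.Agent.Lib_MP_390115_up.Pos6
import Pool.Agent.Lib_MP_390115_up.Dil

/-!
# `b n ≤ (n + 2) ^ K * 2 ^ ((2 / 3 + 1 / B) n)`
-/

namespace Pool.Agent.BUp

open Pool.Agent.Lib_MP_390115_co (CoverEmbeds IsCoverUniversal b)

/-- the conditions on a template -/
def IsTmp (B n : ℕ) (N : Th (2 * B + 1) → ℕ) (W : ℕ) : Prop :=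
  (∑ θ, N θ * θ.1.1) + W ≤ n ∧
    (∑ θ, N θ * θ.1.1) + (∑ θ : Th (2 * B + 1), if θ.1.1 < 6 then N θ else 0) ≤ n ∧
    ∀ x : ℕ, ∑ θ : Th (2 * B + 1), N θ * (Finset.univ.filter fun t => (θ.2 t : ℕ) = x).card ≤
      n / B + 1

/-- templates -/
def TT (B n : ℕ) : Type :=
  {t : (Th (2 * B + 1) → Fin (n + 1)) × Fin (n + 1) // IsTmp B n (fun θ => (t.1 θ : ℕ)) t.2}

noncomputable instance (B n : ℕ) : Fintype (TT B n) := by
  classical
  exact inferInstanceAs (Fintype {t : (Th (2 * B + 1) → Fin (n + 1)) × Fin (n + 1) //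
    IsTmp B n (fun θ => (t.1 θ : ℕ)) t.2})

/-- the number of types of pieces -/
def KK (B : ℕ) : ℕ := Fintype.card (Th (2 * B + 1))

theorem card_TT (B n : ℕ) : Fintype.card (TT B n) ≤ (n + 1) ^ (KK B + 1) := by
  classical
  refine (Fintype.card_subtype_le _).trans (le_of_eq ?_)
  rw [Fintype.card_prod, Fintype.card_fin, pow_succ]
  congr 1
  rw [Fintype.card_fun, Fintype.card_fin]
  rfl

/-- the universal pieces -/
def PT2 (B n : ℕ) (t : TT B n) : Type := SL (conc (fun θ => (t.1.1 θ : ℕ)) B t.1.2)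

noncomputable instance (B n : ℕ) (t : TT B n) : PartialOrder (PT2 B n t) :=
  inferInstanceAs (PartialOrder (SL (conc (fun θ => (t.1.1 θ : ℕ)) B t.1.2)))

noncomputable instance (B n : ℕ) (t : TT B n) : Fintype (PT2 B n t) :=
  inferInstanceAs (Fintype (CL (fun θ => (t.1.1 θ : ℕ)) B t.1.2))

theorem card_PT2 {B n : ℕ} (t : TT B n) :
    (Fintype.card (PT2 B n t) : ℝ) ≤ n * (2 : ℝ) ^ (2 / 3 * (n : ℝ) + (n / B + 1 : ℕ)) :=
  conc_card (fun θ => (t.1.1 θ : ℕ)) B t.1.2 n (n / B + 1) t.2.1 t.2.2.1 t.2.2.2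

theorem tmp_lt {B n : ℕ} {N : Th (2 * B + 1) → ℕ} {W : ℕ} (h : IsTmp B n N W)
    (θ : Th (2 * B + 1)) : N θ < n + 1 := by
  have h1 : N θ * θ.1.1 ≤ ∑ θ, N θ * θ.1.1 :=
    Finset.single_le_sum (f := fun θ : Th (2 * B + 1) => N θ * θ.1.1) (fun _ _ => Nat.zero_le _)
      (Finset.mem_univ θ)
  have h2 : (if θ.1.1 < 6 then N θ else 0) ≤ ∑ θ : Th (2 * B + 1), if θ.1.1 < 6 then N θ else 0 :=
    Finset.single_le_sum (f := fun θ : Th (2 * B + 1) => if θ.1.1 < 6 then N θ else 0)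
      (fun _ _ => Nat.zero_le _) (Finset.mem_univ θ)
  have h3 := h.2.1
  by_cases h4 : θ.1.1 < 6
  · rw [if_pos h4] at h2
    omega
  · have h5 : N θ * 1 ≤ N θ * θ.1.1 := Nat.mul_le_mul_left _ (by omega)
    omega

theorem exists_PT2 {B n : ℕ} (hB : 0 < B) (Q : Type) [PartialOrder Q] [Fintype Q]
    (hQ : Fintype.card Q ≤ n) : ∃ t : TT B n, CoverEmbeds Q (PT2 B n t) := by
  classical
  obtain ⟨A, f, hA, hf⟩ := dilworth Q
  obtain ⟨bq, b1, b2, b3, b4⟩ := exists_blocks Q A hA B n hB hQ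
  obtain ⟨N, pos, c1, c2, c3, c4⟩ := cut6 {x : Q // x ∉ A} A.card (fun x => f x.1)
    (fun x y h => hf x.1 y.1 h) (2 * B + 1) (fun x => bq x.1)
  obtain ⟨d1, d2⟩ := pos_counts N {x : Q // x ∉ A} pos (fun x => bq x.1) c3
  have hcR : Fintype.card {x : Q // x ∉ A} + A.card = Fintype.card Q := by
    rw [Fintype.card_subtype_compl, Fintype.card_coe]
    exact Nat.sub_add_cancel (Finset.card_le_univ A)
  have ht : IsTmp B n N A.card := by
    refine ⟨by omega, (Nat.add_le_add (le_of_eq d1) c4).trans (by omega), fun x => ?_⟩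
    rw [d2 x, ← Finset.card_image_of_injective _ Subtype.val_injective]
    refine b4 x _ fun y hy => ?_
    obtain ⟨z, hz, rfl⟩ := Finset.mem_image.1 hy
    exact ⟨z.2, (Finset.mem_filter.1 hz).2⟩
  refine ⟨⟨(fun θ => ⟨N θ, tmp_lt ht θ⟩, ⟨A.card, ?_⟩), ht⟩, ?_⟩
  · have := ht.1
    omega
  · exact conc_embeds N B Q A hA f hf (fun x => (bq x : ℕ)) pos
      (fun x => congrArg Fin.val (c3 x)) b1 b2 b3 c1 c2

/-- The upper bound. -/
theorem b_upper2 (B n : ℕ) (hB : 0 < B) :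
    (b n : ℝ) ≤ (n + 2) ^ (KK B + 3) * (2 : ℝ) ^ ((2 / 3 + 1 / (B : ℝ)) * n) := by
  have hB' : (0 : ℝ) < B := by exact_mod_cast hB
  have h1 : b n ≤ ∑ t : TT B n, Fintype.card (PT2 B n t) :=
    b_le_sum (PT2 B n) fun Q _ _ hQ => exists_PT2 hB Q hQ
  have hn : (0 : ℝ) ≤ n := Nat.cast_nonneg n
  have hm : ((n / B + 1 : ℕ) : ℝ) ≤ n / B + 1 := by
    rw [Nat.cast_add, Nat.cast_one]
    exact add_le_add_left Nat.cast_div_le 1
  have hE : (2 : ℝ) ^ (2 / 3 * (n : ℝ) + (n / B + 1 : ℕ)) ≤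
      2 * (2 : ℝ) ^ ((2 / 3 + 1 / (B : ℝ)) * n) := by
    calc (2 : ℝ) ^ (2 / 3 * (n : ℝ) + (n / B + 1 : ℕ))
        ≤ (2 : ℝ) ^ ((2 / 3 + 1 / (B : ℝ)) * n + 1) := by
          refine Real.rpow_le_rpow_of_exponent_le (by norm_num) ?_
          have : (1 / (B : ℝ)) * n = n / B := by ring
          rw [add_mul, this]
          linarith
      _ = 2 * (2 : ℝ) ^ ((2 / 3 + 1 / (B : ℝ)) * n) := by
          rw [Real.rpow_add (by norm_num), Real.rpow_one]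
          ring
  have h2 : ((∑ t : TT B n, Fintype.card (PT2 B n t) : ℕ) : ℝ) ≤
      (Fintype.card (TT B n) : ℝ) * (n * (2 : ℝ) ^ (2 / 3 * (n : ℝ) + (n / B + 1 : ℕ))) := by
    rw [Nat.cast_sum]
    refine (Finset.sum_le_card_nsmul _ _ _ fun t _ => card_PT2 t).trans ?_
    rw [nsmul_eq_mul, Finset.card_univ]
  have h3 : (Fintype.card (TT B n) : ℝ) ≤ (n + 2) ^ (KK B + 1) := by
    calc (Fintype.card (TT B n) : ℝ) ≤ ((n : ℝ) + 1) ^ (KK B + 1) := by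
          exact_mod_cast card_TT B n
      _ ≤ (n + 2) ^ (KK B + 1) := by gcongr; norm_num
  calc (b n : ℝ) ≤ ((∑ t : TT B n, Fintype.card (PT2 B n t) : ℕ) : ℝ) := by
        exact_mod_cast h1
    _ ≤ (Fintype.card (TT B n) : ℝ) * (n * (2 : ℝ) ^ (2 / 3 * (n : ℝ) + (n / B + 1 : ℕ))) := h2
    _ ≤ (n + 2) ^ (KK B + 1) * (n * (2 * (2 : ℝ) ^ ((2 / 3 + 1 / (B : ℝ)) * n))) := by
        gcongr
    _ = ((n + 2) ^ (KK B + 1) * (2 * n)) * (2 : ℝ) ^ ((2 / 3 + 1 / (B : ℝ)) * n) := by ring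
    _ ≤ ((n + 2) ^ (KK B + 1) * (n + 2) ^ 2) * (2 : ℝ) ^ ((2 / 3 + 1 / (B : ℝ)) * n) := by
        refine mul_le_mul_of_nonneg_right (mul_le_mul_of_nonneg_left ?_ (by positivity))
          (by positivity)
        nlinarith
    _ = (n + 2) ^ (KK B + 3) * (2 : ℝ) ^ ((2 / 3 + 1 / (B : ℝ)) * n) := by
        rw [← pow_add]

/-- The exponent is at most `2 / 3`. -/
theorem b_two_thirds (ε : ℝ) (hε : 0 < ε) :
    ∀ᶠ n : ℕ in Filter.atTop, (b n : ℝ) ≤ (2 : ℝ) ^ ((2 / 3 + ε) * n) := by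
  obtain ⟨B, hB⟩ := exists_nat_gt (2 / ε)
  have hB0 : (0 : ℝ) < B := lt_trans (by positivity) hB
  have hB1 : 0 < B := by exact_mod_cast hB0
  have hB2 : 1 / (B : ℝ) < ε / 2 := by
    rw [div_lt_iff₀ hB0]
    rw [div_lt_iff₀ hε] at hB
    linarith
  -- polynomial factors are negligible
  have hlim : Filter.Tendsto (fun n : ℕ => ((n : ℝ) + 2) ^ (KK B + 3) / (2 : ℝ) ^ (ε / 2 * n))
      Filter.atTop (nhds 0) := by
    have hr : (1 : ℝ) < (2 : ℝ) ^ (ε / 2) := Real.one_lt_rpow (by norm_num) (by positivity)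
    have h1 := (tendsto_pow_const_div_const_pow_of_one_lt (KK B + 3) hr).comp
      (Filter.tendsto_add_atTop_nat 2)
    have h2 : Filter.Tendsto (fun n : ℕ => ((2 : ℝ) ^ (ε / 2)) ^ 2 *
        (((n + 2 : ℕ) : ℝ) ^ (KK B + 3) / ((2 : ℝ) ^ (ε / 2)) ^ (n + 2))) Filter.atTop (nhds 0) := by
      have := h1.const_mul (((2 : ℝ) ^ (ε / 2)) ^ 2)
      rw [mul_zero] at this
      exact this
    refine h2.congr fun n => ?_
    have h3 : (0 : ℝ) < (2 : ℝ) ^ (ε / 2) := by positivity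
    rw [Real.rpow_mul (by norm_num), Real.rpow_natCast, pow_add _ n 2]
    push_cast
    field_simp
  have h4 : ∀ᶠ n : ℕ in Filter.atTop, ((n : ℝ) + 2) ^ (KK B + 3) / (2 : ℝ) ^ (ε / 2 * n) < 1 :=
    hlim.eventually (gt_mem_nhds one_pos)
  filter_upwards [h4] with n hn
  have hp : (0 : ℝ) < (2 : ℝ) ^ (ε / 2 * n) := Real.rpow_pos_of_pos (by norm_num) _
  rw [div_lt_one hp] at hn
  have hn0 : (0 : ℝ) ≤ n := Nat.cast_nonneg n
  calc (b n : ℝ) ≤ (n + 2) ^ (KK B + 3) * (2 : ℝ) ^ ((2 / 3 + 1 / (B : ℝ)) * n) :=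
        b_upper2 B n hB1
    _ ≤ (2 : ℝ) ^ (ε / 2 * n) * (2 : ℝ) ^ ((2 / 3 + 1 / (B : ℝ)) * n) := by
        gcongr
    _ = (2 : ℝ) ^ (ε / 2 * n + (2 / 3 + 1 / (B : ℝ)) * n) := by
        rw [← Real.rpow_add (by norm_num)]
    _ ≤ (2 : ℝ) ^ ((2 / 3 + ε) * n) := by
        refine Real.rpow_le_rpow_of_exponent_le (by norm_num) ?_
        nlinarith

end Pool.Agent.BUp
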