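import Pool.Agent.Lib_MP_390115_co.Basic

/-!
# Ordered sets from strict relations, and disjoint unions of universal sets
-/

namespace Pool.Agent.BUp

open Pool.Agent.Lib_MP_390115_co (CoverEmbeds IsCoverUniversal b)

/-- the partial order of a strict order -/
@[instance_reducible]
def ofLt {α : Type} (r : α → α → Prop) (hirr : ∀ x, ¬ r x x)
    (htr : ∀ x y z, r x y → r y z → r x z) : PartialOrder α where
  le x y := x = y ∨ r x y
  lt x y := r x y
  le_refl x := Or.inl rfl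
  le_trans := by
    rintro x y z (rfl | h1) (rfl | h2)
    · exact Or.inl rfl
    · exact Or.inr h2
    · exact Or.inr h1
    · exact Or.inr (htr _ _ _ h1 h2)
  le_antisymm := by
    rintro x y (rfl | h1) (h2 | h2)
    · rfl
    · rfl
    · exact h2.symm
    · exact absurd (htr _ _ _ h1 h2) (hirr x)
  lt_iff_le_not_ge := by
    intro x y
    constructor
    · intro h
      refine ⟨Or.inr h, ?_⟩
      rintro (rfl | h2)
      · exact hirr _ h
      · exact hirr _ (htr _ _ _ h h2)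
    · rintro ⟨rfl | h, h2⟩
      · exact absurd (Or.inl rfl) h2
      · exact h

/-- a map which preserves and reflects `<`, injective, and cover preserving -/
theorem coverEmbeds_of {Q P : Type} [PartialOrder Q] [PartialOrder P] (g : Q → P)
    (hinj : Function.Injective g) (hlt : ∀ x y, g x < g y ↔ x < y)
    (hcov : ∀ x y, x ⋖ y → ∀ c, g x < c → c < g y → False) : CoverEmbeds Q P := by
  refine ⟨⟨⟨g, hinj⟩, ?_⟩, ?_⟩
  · intro x y
    show g x ≤ g y ↔ x ≤ y
    rw [le_iff_lt_or_eq, le_iff_lt_or_eq, hlt, hinj.eq_iff]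
  · intro x y hxy
    exact ⟨(hlt x y).2 hxy.lt, fun c h1 h2 => hcov x y hxy c h1 h2⟩

/-- the strict order of a disjoint union -/
def sigLt {T : Type} {P : T → Type} [∀ t, PartialOrder (P t)] (x y : Σ t, P t) : Prop :=
  ∃ h : x.1 = y.1, h ▸ x.2 < y.2

theorem sigLt_mk {T : Type} {P : T → Type} [∀ t, PartialOrder (P t)] {t : T} (x y : P t) :
    sigLt (⟨t, x⟩ : Σ t, P t) ⟨t, y⟩ ↔ x < y :=
  ⟨fun ⟨_, h⟩ => h, fun h => ⟨rfl, h⟩⟩

theorem sigLt_irrefl {T : Type} {P : T → Type} [∀ t, PartialOrder (P t)] (x : Σ t, P t) :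
    ¬ sigLt x x := by
  obtain ⟨t, x⟩ := x
  rw [sigLt_mk]
  exact lt_irrefl x

theorem sigLt_trans {T : Type} {P : T → Type} [∀ t, PartialOrder (P t)] (x y z : Σ t, P t)
    (h1 : sigLt x y) (h2 : sigLt y z) : sigLt x z := by
  obtain ⟨t, x⟩ := x
  obtain ⟨t', y⟩ := y
  obtain ⟨t'', z⟩ := z
  obtain ⟨e1, h1⟩ := h1
  obtain ⟨e2, h2⟩ := h2
  dsimp only at e1 e2
  subst e1
  subst e2
  exact ⟨rfl, lt_trans h1 h2⟩

/-- If every ordered set with at most `n` elements is contained as a covering subset in one of finitely many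
ordered sets, then `b n` is at most the sum of their sizes. -/
theorem b_le_sum {n : ℕ} {T : Type} [Fintype T] (P : T → Type) [∀ t, PartialOrder (P t)]
    [∀ t, Fintype (P t)]
    (h : ∀ (Q : Type) [PartialOrder Q] [Fintype Q], Fintype.card Q ≤ n → ∃ t, CoverEmbeds Q (P t)) :
    b n ≤ ∑ t, Fintype.card (P t) := by
  refine Nat.sInf_le ⟨Σ t, P t, ofLt sigLt sigLt_irrefl sigLt_trans, inferInstance,
    Fintype.card_sigma, ?_⟩
  intro Q _ _ hQ
  obtain ⟨t, f, hf⟩ := h Q hQ
  letI : PartialOrder (Σ t, P t) := ofLt sigLt sigLt_irrefl sigLt_trans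
  refine coverEmbeds_of (fun x => ⟨t, f x⟩) ?_ ?_ ?_
  · intro x y hxy
    exact f.injective (eq_of_heq (Sigma.mk.inj hxy).2)
  · intro x y
    show sigLt _ _ ↔ _
    rw [sigLt_mk, f.lt_iff_lt]
  · intro x y hxy c h1 h2
    obtain ⟨t', c⟩ := c
    obtain ⟨e1, h1⟩ := (h1 : sigLt _ _)
    dsimp only at e1
    subst e1
    have h2' : sigLt (⟨t, c⟩ : Σ t, P t) ⟨t, f y⟩ := h2
    rw [sigLt_mk] at h2'
    exact (hf x y hxy).2 h1 h2'

end Pool.Agent.BUp
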