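import Pool.Agent.Lib_MP_390115_up.Gen

/-!
# The general scheme

Positions `P` (the elements outside an antichain), `low p`: the position is below the antichain. A label has a type
(a position, or a number for an element of the antichain), a set `DD` of positions below it, and a set `EE` of
positions above it, where from a low label one sees only the low positions above it and those positions above it which
are above an element between, which is not low.
-/

namespace Pool.Agent.BUp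

open Pool.Agent.Lib_MP_390115_co (CoverEmbeds IsCoverUniversal b)

/-- data of a scheme -/
structure Scheme where
  Lam : Type
  P : Type
  W : ℕ
  low : P → Prop
  ty : Lam → P ⊕ Fin W
  DD : Lam → Set P
  EE : Lam → Set P

/-- the elements of the scheme -/
def SL (S : Scheme) : Type := S.Lam

/-- evidence for `x < y`, for given types -/
def evT (S : Scheme) (x y : S.Lam) : S.P ⊕ Fin S.W → S.P ⊕ Fin S.W → Prop
  | Sum.inl p, Sum.inl q => p ∈ S.DD y ∧ p ∉ S.DD x ∧ q ∉ S.DD y ∧ (S.low q → S.low p) ∧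
      ((S.low p ↔ S.low q) → q ∈ S.EE x)
  | Sum.inl p, Sum.inr _ => p ∈ S.DD y ∧ p ∉ S.DD x ∧ S.low p
  | Sum.inr _, Sum.inl q => q ∈ S.EE x ∧ q ∉ S.DD y ∧ ¬ S.low q
  | Sum.inr _, Sum.inr _ => False

/-- the strict order of the scheme -/
def ltS (S : Scheme) (x y : SL S) : Prop :=
  S.DD x ⊆ S.DD y ∧ S.EE y ⊆ S.EE x ∧ evT S x y (S.ty x) (S.ty y)

theorem ltS_irrefl (S : Scheme) (x : SL S) : ¬ ltS S x x := by
  rintro ⟨_, _, h⟩
  rcases hx : S.ty x with p | m
  · rw [hx] at h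
    exact h.2.1 h.1
  · rw [hx] at h
    exact h

theorem ltS_trans (S : Scheme) (x y z : SL S) (h1 : ltS S x y) (h2 : ltS S y z) : ltS S x z := by
  obtain ⟨a1, a2, a3⟩ := h1
  obtain ⟨b1, b2, b3⟩ := h2
  refine ⟨a1.trans b1, b2.trans a2, ?_⟩
  rcases hx : S.ty x with p | m
  · rcases hy : S.ty y with q | m'
    · rw [hx, hy] at a3
      obtain ⟨c1, c2, c3, c4, c5⟩ := a3
      rcases hz : S.ty z with r | m''
      · rw [hy, hz] at b3
        obtain ⟨d1, d2, d3, d4, d5⟩ := b3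
        refine ⟨b1 c1, c2, d3, fun h => c4 (d4 h), fun h => a2 (d5 ?_)⟩
        constructor
        · intro hq
          exact h.1 (c4 hq)
        · exact d4
      · rw [hy, hz] at b3
        obtain ⟨d1, d2, d3⟩ := b3
        exact ⟨b1 c1, c2, c4 d3⟩
    · rw [hx, hy] at a3
      obtain ⟨c1, c2, c3⟩ := a3
      rcases hz : S.ty z with r | m''
      · rw [hy, hz] at b3
        obtain ⟨d1, d2, d3⟩ := b3
        exact ⟨b1 c1, c2, d2, fun _ => c3, fun h => absurd (h.1 c3) d3⟩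
      · rw [hy, hz] at b3
        exact b3.elim
  · rcases hy : S.ty y with q | m'
    · rw [hx, hy] at a3
      obtain ⟨c1, c2, c3⟩ := a3
      rcases hz : S.ty z with r | m''
      · rw [hy, hz] at b3
        obtain ⟨d1, d2, d3, d4, d5⟩ := b3
        have h1 : ¬ S.low r := fun h => c3 (d4 h)
        exact ⟨a2 (d5 ⟨fun h => absurd h c3, fun h => absurd h h1⟩), d3, h1⟩
      · rw [hy, hz] at b3
        exact absurd b3.2.2 c3
    · rw [hx, hy] at a3
      exact a3.elim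

instance (S : Scheme) : PartialOrder (SL S) := ofLt (ltS S) (ltS_irrefl S) (ltS_trans S)

/-- below an element of `A` -/
def Lw {Q : Type} [PartialOrder Q] (A : Set Q) (x : Q) : Prop := ∃ a ∈ A, x < a

/-- the relation seen by `EE` -/
def NN {Q : Type} [PartialOrder Q] (A : Set Q) (x y : Q) : Prop :=
  x < y ∧ (¬ Lw A x ∨ Lw A y ∨ ∃ w, ¬ Lw A w ∧ x < w ∧ w < y)

theorem scheme_embeds (S : Scheme) (Q : Type) [PartialOrder Q] (A : Set Q)
    (hA : ∀ x ∈ A, ∀ y ∈ A, ¬ x < y) (pos : {x : Q // x ∉ A} → S.P) (num : Q → Fin S.W)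
    (hsurj : Function.Surjective pos) (hinj : Function.Injective pos)
    (hnum : ∀ x y, x ∈ A → y ∈ A → num x = num y → x = y)
    (hlow : ∀ x, S.low (pos x) ↔ Lw A x.1)
    (lab : Q → S.Lam) (ty1 : ∀ x : {x : Q // x ∉ A}, S.ty (lab x.1) = Sum.inl (pos x))
    (ty2 : ∀ x, x ∈ A → S.ty (lab x) = Sum.inr (num x))
    (hD : ∀ x (y : {x : Q // x ∉ A}), pos y ∈ S.DD (lab x) ↔ y.1 < x)
    (hE : ∀ x (y : {x : Q // x ∉ A}), pos y ∈ S.EE (lab x) ↔ NN A x y.1) :
    CoverEmbeds Q (SL S) := by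
  have hLA : ∀ x, x ∈ A → ¬ Lw A x := fun x hx ⟨a, ha, h⟩ => hA x hx a ha h
  have hLt : ∀ x y, x < y → Lw A y → Lw A x := fun x y h ⟨a, ha, h1⟩ => ⟨a, ha, h.trans h1⟩
  refine coverEmbeds_of (P := SL S) lab ?_ ?_ ?_
  · intro x y hxy
    by_cases hx : x ∈ A
    · by_cases hy : y ∈ A
      · have h1 := ty2 x hx
        rw [hxy, ty2 y hy] at h1
        exact hnum x y hx hy (Sum.inr.inj h1).symm
      · have h1 := ty2 x hx
        rw [hxy, ty1 ⟨y, hy⟩] at h1
        cases h1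
    · by_cases hy : y ∈ A
      · have h1 := ty1 ⟨x, hx⟩
        rw [hxy, ty2 y hy] at h1
        cases h1
      · have h1 := ty1 ⟨x, hx⟩
        rw [hxy, ty1 ⟨y, hy⟩] at h1
        exact congrArg Subtype.val (hinj (Sum.inl.inj h1).symm)
  · intro x y
    show ltS S (lab x) (lab y) ↔ _
    constructor
    · rintro ⟨_, _, h3⟩
      by_cases hx : x ∈ A
      · by_cases hy : y ∈ A
        · rw [ty2 x hx, ty2 y hy] at h3
          exact h3.elim
        · rw [ty2 x hx, ty1 ⟨y, hy⟩] at h3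
          exact ((hE x ⟨y, hy⟩).1 h3.1).1
      · by_cases hy : y ∈ A
        · rw [ty1 ⟨x, hx⟩, ty2 y hy] at h3
          exact (hD y ⟨x, hx⟩).1 h3.1
        · rw [ty1 ⟨x, hx⟩, ty1 ⟨y, hy⟩] at h3
          exact (hD y ⟨x, hx⟩).1 h3.1
    · intro h
      refine ⟨?_, ?_, ?_⟩
      · intro p hp
        obtain ⟨z, rfl⟩ := hsurj p
        exact (hD y z).2 (((hD x z).1 hp).trans h)
      · intro p hp
        obtain ⟨z, rfl⟩ := hsurj p
        obtain ⟨h1, h2⟩ := (hE y z).1 hp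
        refine (hE x z).2 ⟨h.trans h1, ?_⟩
        rcases h2 with h2 | h2 | ⟨w, h2, h3, h4⟩
        · exact Or.inr (Or.inr ⟨y, h2, h, h1⟩)
        · exact Or.inr (Or.inl h2)
        · exact Or.inr (Or.inr ⟨w, h2, h.trans h3, h4⟩)
      · by_cases hx : x ∈ A
        · by_cases hy : y ∈ A
          · exact absurd h (hA x hx y hy)
          · rw [ty2 x hx, ty1 ⟨y, hy⟩]
            refine ⟨(hE x ⟨y, hy⟩).2 ⟨h, Or.inl (hLA x hx)⟩,
              fun h1 => lt_irrefl _ ((hD y ⟨y, hy⟩).1 h1),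
              fun h1 => hLA x hx (hLt x y h ((hlow ⟨y, hy⟩).1 h1))⟩
        · by_cases hy : y ∈ A
          · rw [ty1 ⟨x, hx⟩, ty2 y hy]
            exact ⟨(hD y ⟨x, hx⟩).2 h, fun h1 => lt_irrefl _ ((hD x ⟨x, hx⟩).1 h1),
              (hlow ⟨x, hx⟩).2 ⟨y, hy, h⟩⟩
          · rw [ty1 ⟨x, hx⟩, ty1 ⟨y, hy⟩]
            refine ⟨(hD y ⟨x, hx⟩).2 h, fun h1 => lt_irrefl _ ((hD x ⟨x, hx⟩).1 h1),
              fun h1 => lt_irrefl _ ((hD y ⟨y, hy⟩).1 h1),
              fun h1 => (hlow ⟨x, hx⟩).2 (hLt x y h ((hlow ⟨y, hy⟩).1 h1)), fun h1 => ?_⟩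
            refine (hE x ⟨y, hy⟩).2 ⟨h, ?_⟩
            rw [hlow ⟨x, hx⟩, hlow ⟨y, hy⟩] at h1
            by_cases h2 : Lw A y
            · exact Or.inr (Or.inl h2)
            · exact Or.inl fun h3 => h2 (h1.1 h3)
  · intro x y hxy c h1 h2
    obtain ⟨a1, a2, a3⟩ := (h1 : ltS S (lab x) c)
    obtain ⟨b1, b2, b3⟩ := (h2 : ltS S c (lab y))
    have key : ∀ hy : y ∉ A, pos ⟨y, hy⟩ ∈ S.EE (lab x) → Lw A x → ¬ Lw A y → False := by
      intro hy h3 h4 h5
      obtain ⟨_, h6⟩ := (hE x ⟨y, hy⟩).1 h3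
      rcases h6 with h6 | h6 | ⟨w, _, h7, h8⟩
      · exact h6 h4
      · exact h5 h6
      · exact hxy.2 h7 h8
    rcases hc : S.ty c with p | m
    · obtain ⟨z, rfl⟩ := hsurj p
      have hzy : z.1 < y := by
        by_cases hy : y ∈ A
        · rw [hc, ty2 y hy] at b3
          exact (hD y z).1 b3.1
        · rw [hc, ty1 ⟨y, hy⟩] at b3
          exact (hD y z).1 b3.1
      by_cases hx : x ∈ A
      · rw [ty2 x hx, hc] at a3
        exact hxy.2 ((hE x z).1 a3.1).1 hzy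
      · rw [ty1 ⟨x, hx⟩, hc] at a3
        obtain ⟨c1, c2, c3, c4, c5⟩ := a3
        rw [hlow ⟨x, hx⟩, hlow z] at c5
        rw [hlow ⟨x, hx⟩, hlow z] at c4
        by_cases h3 : Lw A x ↔ Lw A z.1
        · exact hxy.2 ((hE x z).1 (c5 h3)).1 hzy
        · have h4 : Lw A x ∧ ¬ Lw A z.1 := by
            refine ⟨?_, ?_⟩
            · by_contra h5
              exact h3 ⟨fun h => absurd h h5, fun h => absurd (c4 h) h5⟩
            · intro h5
              exact h3 ⟨fun _ => h5, fun _ => c4 h5⟩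
          by_cases hy : y ∈ A
          · rw [hc, ty2 y hy] at b3
            exact h4.2 ((hlow z).1 b3.2.2)
          · rw [hc, ty1 ⟨y, hy⟩] at b3
            obtain ⟨d1, d2, d3, d4, d5⟩ := b3
            rw [hlow z, hlow ⟨y, hy⟩] at d4 d5
            have h5 : ¬ Lw A y := fun h => h4.2 (d4 h)
            exact key hy (a2 (d5 ⟨fun h => absurd h h4.2, fun h => absurd h h5⟩)) h4.1 h5
    · by_cases hx : x ∈ A
      · rw [ty2 x hx, hc] at a3
        exact a3
      · rw [ty1 ⟨x, hx⟩, hc] at a3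
        have h3 := (hlow ⟨x, hx⟩).1 a3.2.2
        by_cases hy : y ∈ A
        · rw [hc, ty2 y hy] at b3
          exact b3
        · rw [hc, ty1 ⟨y, hy⟩] at b3
          exact key hy (a2 b3.1) h3 fun h => b3.2.2 ((hlow ⟨y, hy⟩).2 h)

end Pool.Agent.BUp
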