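import Pool.Agent.Lib_MP_390115_co.Basic

/-!
# Interface for the upper bound `b n ≤ (n + 2) ^ 204 * 2 ^ (0.77 n)` (statements only)

Never import this file in a proof.
-/

namespace Pool.Agent.BUp

open Pool.Agent.Lib_MP_390115_co (CoverEmbeds IsCoverUniversal b)

/-- Dilworth's theorem: an antichain and a colouring by the elements of the antichain whose
classes are chains. (file Dil.lean) -/
theorem dilworth (α : Type) [PartialOrder α] [Fintype α] :
    ∃ (A : Finset α) (f : α → Fin A.card), IsAntichain (· ≤ ·) (A : Set α) ∧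
      ∀ x y, f x = f y → x ≤ y ∨ y ≤ x := by
  sorry

/-- A chain colouring with `w` colours can be refined to pieces of size at most `L`, grouped by
size. (file Cut.lean) -/
theorem cut (Q : Type) [PartialOrder Q] [Fintype Q] (w : ℕ) (f : Q → Fin w)
    (hf : ∀ x y, f x = f y → x ≤ y ∨ y ≤ x) (L : ℕ) (hL : 0 < L) :
    ∃ (N : Fin L → ℕ) (ι : Q → Σ l : Fin L, Fin (N l)),
      (∀ x y, ι x = ι y → x ≤ y ∨ y ≤ x) ∧
      (∀ j : Σ l : Fin L, Fin (N l), Nat.card {x : Q // ι x = j} ≤ j.1.1 + 1) ∧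
      ∑ l, N l ≤ w + Fintype.card Q / L ∧
      ∑ l, N l * (l.1 + 1) ≤ Fintype.card Q := by
  sorry

end Pool.Agent.BUp
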