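import Pool.Agent.Lib_MP_390115_co.Basic

/-!
# Interface for the exponent 2/3 (statements only)

Never import this file in a proof.
-/

namespace Pool.Agent.BUp

open Pool.Agent.Lib_MP_390115_co (CoverEmbeds IsCoverUniversal b)

/-- A chain colouring is refined to pieces of size at most 6. Each piece has a type: its size `c` and the sequence
of the values of `bl` along the piece. `N θ` is the number of pieces of type `θ`; at most `w` pieces have
fewer than 6 elements. (file Cut6.lean) -/
theorem cut6 (R : Type) [PartialOrder R] [Fintype R] (w : ℕ) (f : R → Fin w)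
    (hf : ∀ x y, f x = f y → x ≤ y ∨ y ≤ x) (β : ℕ) (bl : R → Fin β) :
    ∃ (N : (Σ c : Fin 7, (Fin c.1 → Fin β)) → ℕ)
      (pos : R ≃ Σ j : (Σ θ : (Σ c : Fin 7, (Fin c.1 → Fin β)), Fin (N θ)), Fin j.1.1.1),
      (∀ x y, (pos x).1 = (pos y).1 → f x = f y) ∧
      (∀ x y, (pos x).1 = (pos y).1 → ((pos x).2 : ℕ) < ((pos y).2 : ℕ) → x < y) ∧
      (∀ x, (pos x).1.1.2 (pos x).2 = bl x) ∧
      (∑ θ : (Σ c : Fin 7, (Fin c.1 → Fin β)), if θ.1.1 < 6 then N θ else 0) ≤ w := by
  sorry

/-- The states of one piece: `a + 1` times `e + 1`, where `a` elements have block at most `x` and `e` elements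
have block at least `x`. (file Count6.lean) -/
theorem piece_states {β : ℕ} (c : Fin 7) (s : Fin c.1 → Fin β) (x : ℕ) :
    (((Finset.univ.filter fun t => (s t : ℕ) ≤ x).card + 1) *
      ((Finset.univ.filter fun t => x ≤ (s t : ℕ)).card + 1)) ^ 3 ≤
      4 ^ (c.1 + if c.1 < 6 then 1 else 0) * 8 ^ (Finset.univ.filter fun t => (s t : ℕ) = x).card := by
  sorry

end Pool.Agent.BUp
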