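import Pool.Agent.Lib_MP_390115_up.CDef

/-!
# Interface for the exponent 2/3, second part (statements only)

Never import this file in a proof.
-/

namespace Pool.Agent.BUp

open Pool.Agent.Lib_MP_390115_co (CoverEmbeds IsCoverUniversal b)

/-- the number of labels (file Card6.lean, imports CDef and Count6) -/
theorem conc_card {β : ℕ} (N : Th β → ℕ) (B W n m : ℕ) (h1 : (∑ θ, N θ * θ.1.1) + W ≤ n)
    (h2 : (∑ θ, N θ * θ.1.1) + (∑ θ : Th β, if θ.1.1 < 6 then N θ else 0) ≤ n)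
    (h3 : ∀ x : ℕ, ∑ θ : Th β, N θ * (Finset.univ.filter fun t => (θ.2 t : ℕ) = x).card ≤ m) :
    (Fintype.card (CL N B W) : ℝ) ≤ n * (2 : ℝ) ^ (2 / 3 * (n : ℝ) + m) := by
  sorry

/-- block numbers (file Blocks.lean, imports Anti for exists_ext and idx) -/
theorem exists_blocks (Q : Type) [PartialOrder Q] [Fintype Q] (A : Finset Q)
    (hA : IsAntichain (· ≤ ·) (A : Set Q)) (B n : ℕ) (hB : 0 < B) (hn : Fintype.card Q ≤ n) :
    ∃ bq : Q → Fin (2 * B + 1), (∀ x ∈ A, (bq x : ℕ) = B) ∧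
      (∀ x y, x < y → (bq x : ℕ) ≤ (bq y : ℕ)) ∧
      (∀ x, x ∉ A → ((bq x : ℕ) < B ↔ ∃ a ∈ A, x < a)) ∧
      (∀ (k : ℕ) (S : Finset Q), (∀ x ∈ S, x ∉ A ∧ (bq x : ℕ) = k) → S.card ≤ n / B + 1) := by
  sorry

/-- the number of positions of a given block (file Pos6.lean, imports CDef only) -/
theorem pos_counts {β : ℕ} (N : Th β → ℕ) (R : Type) [Fintype R] (pos : R ≃ PP N)
    (bl : R → Fin β) (hbl : ∀ x, (pos x).1.1.2 (pos x).2 = bl x) :
    (∑ θ, N θ * θ.1.1) = Fintype.card R ∧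
      ∀ k : ℕ, ∑ θ : Th β, N θ * (Finset.univ.filter fun t => (θ.2 t : ℕ) = k).card =
        (Finset.univ.filter fun x : R => (bl x : ℕ) = k).card := by
  sorry

end Pool.Agent.BUp
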